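import Pool.Agent.Helper6.LR.HostGraph

set_option linter.unusedSectionVars false

/-!
# Almost all graphs of rank `r` have chromatic number polynomial in `r`
-/

namespace Pool.Agent.Helper6.LR

open Finset Module

theorem inG_pos {r : ℕ} {G : FinGraph} (h : InG r G) : 0 < G.1 := by
  obtain ⟨x⟩ := h.1.nonempty
  exact lt_of_le_of_lt (Nat.zero_le _) x.2

theorem inG_card {r : ℕ} {G : FinGraph} (h : InG r G) : G.1 ^ 2 ≤ 8 * ((r + 1) * 2 ^ r) := by
  classical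
  have h1 := card_sq_le (G := G.2) h.2.1
  have h2 : (G.2.adjMatrix ℝ).rank = r := h.2.2
  rw [h2, Fintype.card_fin] at h1
  exact h1

theorem inG_chi {r : ℕ} (hr : 2 ≤ r) {G : FinGraph} (h : InG r G) :
    (chi G : ℝ) ≤ (16 * (r : ℝ) ^ 2 * 2 ^ r / (G.1 : ℝ) ^ 2) ^ 61 := by
  classical
  haveI : Nonempty (Fin G.1) := h.1.nonempty
  have h2 : (G.2.adjMatrix ℝ).rank = r := h.2.2
  have h1 := chi_bound (G := G.2) h.2.1 (by rw [h2]; omega)
  rw [h2, Fintype.card_fin] at h1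
  exact h1

theorem inG_finite (r : ℕ) : {G : FinGraph | InG r G}.Finite := by
  classical
  refine Set.Finite.subset (Set.finite_range
    (fun x : Σ n : Fin (8 * ((r + 1) * 2 ^ r) + 1), SimpleGraph (Fin n) =>
      (⟨x.1, x.2⟩ : FinGraph))) ?_
  rintro ⟨n, G⟩ h
  have h1 := inG_card h
  simp only at h1
  have h2 : n < 8 * ((r + 1) * 2 ^ r) + 1 := by
    nlinarith
  exact ⟨⟨⟨n, h2⟩, G⟩, rfl⟩

theorem isoClasses_finite {p : FinGraph → Prop} (h : {G : FinGraph | p G}.Finite) :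
    (isoClasses p).Finite := by
  have : isoClasses p = (Quotient.mk isoRel) '' {G | p G} := by
    ext q
    constructor
    · rintro ⟨G, hG, rfl⟩
      exact ⟨G, hG, rfl⟩
    · rintro ⟨G, hG, rfl⟩
      exact ⟨G, hG, rfl⟩
  rw [this]
  exact h.image _

/-- The exceptional graphs are small. -/
theorem bad_small {r : ℕ} (hr : 46 ≤ r) {G : FinGraph} (h : InG r G) (hb : r ^ 366 < chi G) :
    8 * (G.1 * r) ≤ 2 ^ (r / 2) := by
  have h1 := inG_chi (by omega) h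
  have hn : (0 : ℝ) < G.1 := by exact_mod_cast inG_pos h
  have hrR : (46 : ℝ) ≤ r := by exact_mod_cast hr
  have hr0 : (0 : ℝ) < r := by linarith
  have h2 : (r : ℝ) ^ 6 < 16 * (r : ℝ) ^ 2 * 2 ^ r / (G.1 : ℝ) ^ 2 := by
    by_contra hcon
    push Not at hcon
    have h3 : (chi G : ℝ) ≤ (r : ℝ) ^ 366 := by
      calc (chi G : ℝ) ≤ _ := h1
        _ ≤ ((r : ℝ) ^ 6) ^ 61 := pow_le_pow_left₀ (by positivity) hcon 61
        _ = (r : ℝ) ^ 366 := by rw [← pow_mul]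
    have h4 : chi G ≤ r ^ 366 := by exact_mod_cast h3
    omega
  rw [lt_div_iff₀ (by positivity)] at h2
  have h3 : (r : ℝ) ^ 4 * (G.1 : ℝ) ^ 2 < 16 * 2 ^ r := by
    have h4 : (r : ℝ) ^ 2 * ((r : ℝ) ^ 4 * (G.1 : ℝ) ^ 2) < (r : ℝ) ^ 2 * (16 * 2 ^ r) := by
      calc (r : ℝ) ^ 2 * ((r : ℝ) ^ 4 * (G.1 : ℝ) ^ 2) = (r : ℝ) ^ 6 * (G.1 : ℝ) ^ 2 := by ring
        _ < _ := h2
        _ = _ := by ring
    exact lt_of_mul_lt_mul_left h4 (by positivity)
  have h5 : (2 : ℝ) ^ r ≤ 2 * ((2 : ℝ) ^ (r / 2)) ^ 2 := by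
    calc (2 : ℝ) ^ r ≤ 2 ^ (1 + (r / 2) * 2) := pow_le_pow_right₀ (by norm_num) (by omega)
      _ = 2 * ((2 : ℝ) ^ (r / 2)) ^ 2 := by rw [pow_add, pow_mul, pow_one]
  have h6 : (8 * ((G.1 : ℝ) * r)) ^ 2 ≤ ((2 : ℝ) ^ (r / 2)) ^ 2 := by
    have h7 : (r : ℝ) ^ 2 * (8 * ((G.1 : ℝ) * r)) ^ 2 ≤ (r : ℝ) ^ 2 * ((2 : ℝ) ^ (r / 2)) ^ 2 := by
      calc (r : ℝ) ^ 2 * (8 * ((G.1 : ℝ) * r)) ^ 2 = 64 * ((r : ℝ) ^ 4 * (G.1 : ℝ) ^ 2) := by ring
        _ ≤ 64 * (16 * 2 ^ r) := by linarith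
        _ ≤ 64 * (16 * (2 * ((2 : ℝ) ^ (r / 2)) ^ 2)) := by linarith
        _ = 2048 * ((2 : ℝ) ^ (r / 2)) ^ 2 := by ring
        _ ≤ (r : ℝ) ^ 2 * ((2 : ℝ) ^ (r / 2)) ^ 2 := by
            apply mul_le_mul_of_nonneg_right _ (by positivity)
            nlinarith
    exact le_of_mul_le_mul_left h7 (by positivity)
  have h8 : 8 * ((G.1 : ℝ) * r) ≤ (2 : ℝ) ^ (r / 2) :=
    le_of_sq_le_sq h6 (by positivity)
  exact_mod_cast h8

theorem small_no_bad {r : ℕ} (hr : 2 ≤ r) (hr' : r < 46) {G : FinGraph} (h : InG r G) :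
    chi G ≤ r ^ 366 := by
  classical
  have h1 := inG_card h
  have h2 : chi G ≤ G.1 := by
    have h3 : G.2.Colorable G.1 := by
      have := G.2.colorable_of_fintype
      simpa using this
    exact ENat.toNat_le_of_le_natCast h3.chromaticNumber_le
  have h3 : G.1 ^ 2 ≤ 2 ^ 60 := by
    calc G.1 ^ 2 ≤ 8 * ((r + 1) * 2 ^ r) := h1
      _ ≤ 8 * (46 * 2 ^ 45) := by
          apply Nat.mul_le_mul_left
          apply Nat.mul_le_mul (by omega)
          exact Nat.pow_le_pow_right (by norm_num) (by omega)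
      _ ≤ 2 ^ 60 := by norm_num
  have h4 : G.1 ≤ 2 ^ 60 := by
    calc G.1 ≤ G.1 ^ 2 := Nat.le_self_pow (by norm_num) _
      _ ≤ _ := h3
  calc chi G ≤ G.1 := h2
    _ ≤ 2 ^ 60 := h4
    _ ≤ 2 ^ 366 := Nat.pow_le_pow_right (by norm_num) (by norm_num)
    _ ≤ r ^ 366 := Nat.pow_le_pow_left hr 366

/-- Upper bound for the number of classes of exceptional graphs. -/
theorem bad_count {r N : ℕ} (p : FinGraph → Prop) (hp : ∀ G, p G → InG r G ∧ G.1 ≤ N) :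
    (isoClasses p).ncard ≤ (N + 1) * (N ^ r * 2 ^ (N * r)) := by
  classical
  let T : Finset FinGraph := (Finset.range (N + 1)).sigma fun n =>
    Finset.univ.filter fun G : SimpleGraph (Fin n) => (G.adjMatrix ℝ).rank = r
  have hT : T.card ≤ (N + 1) * (N ^ r * 2 ^ (N * r)) := by
    rw [Finset.card_sigma]
    calc ∑ n ∈ Finset.range (N + 1), (Finset.univ.filter fun G : SimpleGraph (Fin n) =>
          (G.adjMatrix ℝ).rank = r).card ≤
          ∑ n ∈ Finset.range (N + 1), N ^ r * 2 ^ (N * r) := by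
            apply Finset.sum_le_sum
            intro n hn
            have hnN : n ≤ N := by
              have := Finset.mem_range.mp hn
              omega
            refine (card_rank_le n r).trans ?_
            apply Nat.mul_le_mul (Nat.pow_le_pow_left hnN r)
            exact Nat.pow_le_pow_right (by norm_num) (Nat.mul_le_mul_right r hnN)
      _ = _ := by rw [Finset.sum_const, Finset.card_range, smul_eq_mul]
  have hsub : isoClasses p ⊆ ((T.image (Quotient.mk isoRel) : Finset (Quotient isoRel)) :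
      Set (Quotient isoRel)) := by
    rintro q ⟨G, hG, rfl⟩
    rw [Finset.mem_coe]
    apply Finset.mem_image_of_mem
    obtain ⟨h1, h2⟩ := hp G hG
    rw [Finset.mem_sigma, Finset.mem_range, Finset.mem_filter]
    refine ⟨by omega, Finset.mem_univ _, ?_⟩
    have h3 := h1.2.2
    rw [grank] at h3
    convert h3
  calc (isoClasses p).ncard ≤ _ := Set.ncard_le_ncard hsub (Finset.finite_toSet _)
    _ = (T.image (Quotient.mk isoRel)).card := Set.ncard_coe_finset _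
    _ ≤ T.card := Finset.card_image_le
    _ ≤ _ := hT

theorem all_count (ρ : ℕ) {t : ℕ} (ht : t ≤ 1) :
    2 ^ (2 ^ (ρ + 1) - ρ - 3) ≤
      2 ^ ((ρ + 2) * (2 * ρ + 4)) * (isoClasses (InG (2 * (ρ + 1) + t))).ncard := by
  have h1 := count_classes (H := HG ρ t) (K := core ρ t) (host_h2 ρ ht)
    (p := InG (2 * (ρ + 1) + t)) (fun X hX => host_inG ρ ht hX)
    (isoClasses_finite (inG_finite _))
  have hK := core_card ρ t
  have hU := card_HV ρ t
  have hlt : ρ + 1 < 2 ^ (ρ + 1) := Nat.lt_two_pow_self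
  have hU2 : Fintype.card (HV ρ t) ≤ 2 ^ (ρ + 2) := by
    rw [hU]
    have : 2 ^ (ρ + 2) = 2 * 2 ^ (ρ + 1) := by ring
    omega
  calc 2 ^ (2 ^ (ρ + 1) - ρ - 3) ≤ 2 ^ (Fintype.card (HV ρ t) - (core ρ t).card) := by
        apply Nat.pow_le_pow_right (by norm_num)
        omega
    _ ≤ _ := h1
    _ ≤ 2 ^ ((ρ + 2) * (2 * ρ + 4)) * (isoClasses (InG (2 * (ρ + 1) + t))).ncard := by
        apply Nat.mul_le_mul_right
        calc Fintype.card (HV ρ t) ^ (core ρ t).card ≤ (2 ^ (ρ + 2)) ^ (core ρ t).card :=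
              Nat.pow_le_pow_left hU2 _
          _ ≤ (2 ^ (ρ + 2)) ^ (2 * ρ + 4) :=
              Nat.pow_le_pow_right (by positivity) (by omega)
          _ = _ := by rw [← pow_mul]

theorem num_ineq {ρ : ℕ} (hρ : 10 ≤ ρ) : 8 * (4 * ρ ^ 2 + 15 * ρ + 17) ≤ 3 * 2 ^ (ρ + 1) := by
  induction ρ, hρ using Nat.le_induction with
  | base => norm_num
  | succ n hn ih =>
    have h : 3 * 2 ^ (n + 1 + 1) = 2 * (3 * 2 ^ (n + 1)) := by ring
    rw [h]
    nlinarith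

theorem all_pos {r : ℕ} (hr : 2 ≤ r) : 0 < (isoClasses (InG r)).ncard := by
  obtain ⟨ρ, t, ht, rfl⟩ : ∃ ρ t : ℕ, t ≤ 1 ∧ r = 2 * (ρ + 1) + t :=
    ⟨r / 2 - 1, r % 2, by omega, by omega⟩
  have h := all_count ρ ht
  by_contra h0
  have h1 : (isoClasses (InG (2 * (ρ + 1) + t))).ncard = 0 := by omega
  rw [h1, mul_zero] at h
  have : 0 < 2 ^ (2 ^ (ρ + 1) - ρ - 3) := by positivity
  omega

theorem almost_all {r : ℕ} (hr : 2 ≤ r) :
    2 ^ (2 ^ (r / 2) / 2) * (isoClasses fun G => InG r G ∧ r ^ 366 < chi G).ncard ≤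
      (isoClasses (InG r)).ncard := by
  by_cases hr' : r < 46
  · have h0 : (isoClasses fun G => InG r G ∧ r ^ 366 < chi G) = ∅ := by
      ext q
      constructor
      · rintro ⟨G, ⟨hG, hb⟩, _⟩
        have := small_no_bad hr hr' hG
        omega
      · intro h
        exact absurd h (Set.notMem_empty q)
    rw [h0, Set.ncard_empty, mul_zero]
    exact Nat.zero_le _
  push Not at hr'
  obtain ⟨ρ, t, ht, hrρ⟩ : ∃ ρ t : ℕ, t ≤ 1 ∧ r = 2 * (ρ + 1) + t :=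
    ⟨r / 2 - 1, r % 2, by omega, by omega⟩
  have hρ : 10 ≤ ρ := by omega
  have hhalf : r / 2 = ρ + 1 := by omega
  set E := 2 ^ (ρ + 1) with hE
  have hbc := bad_count (r := r) (N := E / (8 * r))
    (fun G => InG r G ∧ r ^ 366 < chi G) (fun G hG => by
      refine ⟨hG.1, ?_⟩
      have h1 := bad_small hr' hG.1 hG.2
      rw [hhalf, ← hE] at h1
      rw [Nat.le_div_iff_mul_le (by omega)]
      calc G.1 * (8 * r) = 8 * (G.1 * r) := by ring
        _ ≤ E := h1)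
  have hac := all_count ρ ht
  rw [← hrρ, ← hE] at hac
  set N := E / (8 * r) with hN
  set bad := (isoClasses fun G => InG r G ∧ r ^ 366 < chi G).ncard with hbad
  set all := (isoClasses (InG r)).ncard with hall
  rw [hhalf, ← hE]
  have hNr : 8 * (N * r) ≤ E := by
    calc 8 * (N * r) = N * (8 * r) := by ring
      _ ≤ E := Nat.div_mul_le_self _ _
  have hNE : N ≤ E := Nat.div_le_self _ _
  have hN1 : N + 1 ≤ 2 ^ (ρ + 2) := by
    have h1 : 1 ≤ E := Nat.one_le_two_pow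
    have h2 : 2 ^ (ρ + 2) = 2 * E := by rw [hE]; ring
    omega
  have hNpow : N ^ r ≤ 2 ^ ((ρ + 1) * (2 * ρ + 3)) := by
    calc N ^ r ≤ E ^ r := Nat.pow_le_pow_left hNE r
      _ = 2 ^ ((ρ + 1) * r) := by rw [hE, ← pow_mul]
      _ ≤ _ := Nat.pow_le_pow_right (by norm_num) (Nat.mul_le_mul_left _ (by omega))
  have h2 : 2 ^ (N * r) ≤ 2 ^ (E / 8) := by
    apply Nat.pow_le_pow_right (by norm_num)
    omega
  have hbad2 : bad ≤ 2 ^ (ρ + 2) * (2 ^ ((ρ + 1) * (2 * ρ + 3)) * 2 ^ (E / 8)) :=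
    hbc.trans (Nat.mul_le_mul hN1 (Nat.mul_le_mul hNpow h2))
  have hnum := num_ineq hρ
  have hexp : E / 2 + (ρ + 2 + ((ρ + 1) * (2 * ρ + 3) + E / 8)) + (ρ + 2) * (2 * ρ + 4) ≤
      E - ρ - 3 := by
    have h3 : (ρ + 1) * (2 * ρ + 3) = 2 * ρ ^ 2 + 5 * ρ + 3 := by ring
    have h4 : (ρ + 2) * (2 * ρ + 4) = 2 * ρ ^ 2 + 8 * ρ + 8 := by ring
    rw [h3, h4]
    rw [← hE] at hnum
    omega
  have hfin : 2 ^ ((ρ + 2) * (2 * ρ + 4)) * (2 ^ (E / 2) * bad) ≤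
      2 ^ ((ρ + 2) * (2 * ρ + 4)) * all := by
    calc 2 ^ ((ρ + 2) * (2 * ρ + 4)) * (2 ^ (E / 2) * bad) ≤
          2 ^ ((ρ + 2) * (2 * ρ + 4)) * (2 ^ (E / 2) *
            (2 ^ (ρ + 2) * (2 ^ ((ρ + 1) * (2 * ρ + 3)) * 2 ^ (E / 8)))) :=
          Nat.mul_le_mul_left _ (Nat.mul_le_mul_left _ hbad2)
      _ = 2 ^ (E / 2 + (ρ + 2 + ((ρ + 1) * (2 * ρ + 3) + E / 8)) + (ρ + 2) * (2 * ρ + 4)) := by
          rw [pow_add, pow_add, pow_add, pow_add]
          ring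
      _ ≤ 2 ^ (E - ρ - 3) := Nat.pow_le_pow_right (by norm_num) hexp
      _ ≤ _ := hac
  exact Nat.le_of_mul_le_mul_left hfin (by positivity)

end Pool.Agent.Helper6.LR
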