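import Mathlib

set_option linter.unusedSectionVars false

/-!
# Ranks of submatrices, classes of columns up to sign

For a matrix `N` indexed by `V × V` and finite sets `A` (rows), `B` (columns): `P A` is the
projection to the coordinates in `A`, `CS N A B` the column space of `N[A, B]`, `rk N A B` its
dimension, `Par N A b b'` says that the columns `b, b'` agree on `A` up to a sign.
-/

namespace Pool.Agent.Helper6.LR

open Finset Module

variable {V : Type*} [Fintype V] [DecidableEq V]

/-- Projection to the coordinates in `A`. -/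
def P (A : Finset V) : (V → ℝ) →ₗ[ℝ] (V → ℝ) where
  toFun x := fun i => if i ∈ A then x i else 0
  map_add' x y := by
    funext i
    by_cases h : i ∈ A <;> simp [h]
  map_smul' c x := by
    funext i
    by_cases h : i ∈ A <;> simp [h]

theorem P_apply (A : Finset V) (x : V → ℝ) (i : V) : P A x i = if i ∈ A then x i else 0 := rfl

theorem P_mem {A : Finset V} {x : V → ℝ} {i : V} (h : i ∈ A) : P A x i = x i := by
  simp [P_apply, h]

theorem P_not_mem {A : Finset V} {x : V → ℝ} {i : V} (h : i ∉ A) : P A x i = 0 := by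
  simp [P_apply, h]

theorem P_P {A' A : Finset V} (h : A' ⊆ A) (x : V → ℝ) : P A' (P A x) = P A' x := by
  funext i
  by_cases hi : i ∈ A'
  · rw [P_mem hi, P_mem hi, P_mem (h hi)]
  · rw [P_not_mem hi, P_not_mem hi]

theorem P_eq_iff {A : Finset V} {x y : V → ℝ} : P A x = P A y ↔ ∀ i ∈ A, x i = y i := by
  constructor
  · intro h i hi
    have := congrFun h i
    rwa [P_mem hi, P_mem hi] at this
  · intro h
    funext i
    by_cases hi : i ∈ A
    · rw [P_mem hi, P_mem hi, h i hi]
    · rw [P_not_mem hi, P_not_mem hi]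

/-- Column `b` of `N`. -/
def col (N : V → V → ℝ) (b : V) : V → ℝ := fun a => N a b

/-- Column space of `N[A, B]`. -/
def CS (N : V → V → ℝ) (A B : Finset V) : Submodule ℝ (V → ℝ) :=
  Submodule.span ℝ ((fun b => P A (col N b)) '' (B : Set V))

/-- The rank of `N[A, B]`. -/
noncomputable def rk (N : V → V → ℝ) (A B : Finset V) : ℕ := finrank ℝ (CS N A B)

theorem mem_CS (N : V → V → ℝ) (A : Finset V) {B : Finset V} {b : V} (hb : b ∈ B) :
    P A (col N b) ∈ CS N A B := Submodule.subset_span ⟨b, hb, rfl⟩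

theorem CS_mono (N : V → V → ℝ) (A : Finset V) {B' B : Finset V} (h : B' ⊆ B) :
    CS N A B' ≤ CS N A B := Submodule.span_mono (Set.image_mono (by exact_mod_cast h))

theorem CS_map (N : V → V → ℝ) {A' A : Finset V} (B : Finset V) (h : A' ⊆ A) :
    (CS N A B).map (P A') = CS N A' B := by
  rw [CS, CS, Submodule.map_span, Set.image_image]
  congr 1
  apply Set.image_congr
  intro b _
  exact P_P h _

theorem rk_mono_right (N : V → V → ℝ) (A : Finset V) {B' B : Finset V} (h : B' ⊆ B) :
    rk N A B' ≤ rk N A B := Submodule.finrank_mono (CS_mono N A h)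

theorem rk_mono_left (N : V → V → ℝ) {A' A : Finset V} (B : Finset V) (h : A' ⊆ A) :
    rk N A' B ≤ rk N A B := by
  rw [rk, ← CS_map N B h]
  exact Submodule.finrank_map_le _ _

theorem finrank_add (K : Submodule ℝ (V → ℝ)) (f : (V → ℝ) →ₗ[ℝ] (V → ℝ)) :
    finrank ℝ (K.map f) + finrank ℝ (K ⊓ LinearMap.ker f : Submodule ℝ (V → ℝ)) =
      finrank ℝ K := by
  have h := LinearMap.finrank_range_add_finrank_ker (f.domRestrict K)
  have h1 : LinearMap.range (f.domRestrict K) = K.map f := by
    ext x
    constructor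
    · rintro ⟨y, rfl⟩
      exact ⟨y.1, y.2, rfl⟩
    · rintro ⟨y, hy, rfl⟩
      exact ⟨⟨y, hy⟩, rfl⟩
  have h2 : (LinearMap.ker (f.domRestrict K)).map K.subtype = K ⊓ LinearMap.ker f := by
    ext x
    constructor
    · rintro ⟨y, hy, rfl⟩
      exact ⟨y.2, hy⟩
    · rintro ⟨hx, hx'⟩
      exact ⟨⟨x, hx⟩, hx', rfl⟩
  rw [h1] at h
  rw [← h, ← h2, LinearEquiv.finrank_eq (Submodule.equivMapOfInjective K.subtype
    (Submodule.subtype_injective K) (LinearMap.ker (f.domRestrict K)))]

/-- The vectors of the column space vanishing on `A'`. -/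
theorem rk_add_ker (N : V → V → ℝ) {A' A : Finset V} (B : Finset V) (h : A' ⊆ A) :
    rk N A' B + finrank ℝ (CS N A B ⊓ LinearMap.ker (P A') : Submodule ℝ (V → ℝ)) =
      rk N A B := by
  rw [rk, rk, ← CS_map N B h]
  exact finrank_add _ _

/-- Frobenius' inequality. -/
theorem frobenius (N : V → V → ℝ) {A' A B' B : Finset V} (hA : A' ⊆ A) (hB : B' ⊆ B) :
    rk N A' B + rk N A B' ≤ rk N A B + rk N A' B' := by
  have h1 := rk_add_ker N B hA
  have h2 := rk_add_ker N B' hA
  have h3 : finrank ℝ (CS N A B' ⊓ LinearMap.ker (P A') : Submodule ℝ (V → ℝ)) ≤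
      finrank ℝ (CS N A B ⊓ LinearMap.ker (P A') : Submodule ℝ (V → ℝ)) :=
    Submodule.finrank_mono (inf_le_inf_right _ (CS_mono N A hB))
  omega

/-- The transposed matrix. -/
def tr (N : V → V → ℝ) : V → V → ℝ := fun i j => N j i

theorem tr_tr (N : V → V → ℝ) : tr (tr N) = N := rfl

theorem rk_eq_rank (N : V → V → ℝ) (A B : Finset V) :
    rk N A B = (Matrix.of fun i j => if i ∈ A ∧ j ∈ B then N i j else 0 : Matrix V V ℝ).rank := by
  rw [Matrix.rank_eq_finrank_span_cols, rk]
  suffices h : CS N A B = Submodule.span ℝ (Set.range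
      (Matrix.of fun i j => if i ∈ A ∧ j ∈ B then N i j else 0 : Matrix V V ℝ).col) by
    rw [h]
  apply le_antisymm
  · rw [CS, Submodule.span_le]
    rintro _ ⟨b, hb, rfl⟩
    apply Submodule.subset_span
    refine ⟨b, ?_⟩
    funext i
    have hb' : b ∈ B := hb
    simp [Matrix.col, P_apply, col, hb']
  · rw [Submodule.span_le]
    rintro _ ⟨b, rfl⟩
    by_cases hb : b ∈ B
    · have : (Matrix.of fun i j => if i ∈ A ∧ j ∈ B then N i j else 0 : Matrix V V ℝ).col b =
          P A (col N b) := by
        funext i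
        simp [Matrix.col, P_apply, col, hb]
      rw [this]
      exact mem_CS N A hb
    · have : (Matrix.of fun i j => if i ∈ A ∧ j ∈ B then N i j else 0 : Matrix V V ℝ).col b =
          0 := by
        funext i
        simp [Matrix.col, hb]
      rw [this]
      exact Submodule.zero_mem _

theorem rk_tr (N : V → V → ℝ) (A B : Finset V) : rk (tr N) B A = rk N A B := by
  rw [rk_eq_rank, rk_eq_rank, ← Matrix.rank_transpose]
  congr 1
  ext i j
  simp [tr, Matrix.transpose_apply, and_comm]

/-- Counting vectors with two possible values in each coordinate. -/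
theorem cube_count : ∀ (d : ℕ) (K : Submodule ℝ (V → ℝ)) (T : Finset (V → ℝ)),
    finrank ℝ K ≤ d → (∀ x ∈ T, ∀ y ∈ T, x - y ∈ K) →
    (∀ i, ∃ c c' : ℝ, ∀ x ∈ T, x i = c ∨ x i = c') → T.card ≤ 2 ^ d := by
  classical
  intro d
  induction d with
  | zero =>
    intro K T hK hT _
    have hK0 : K = ⊥ := by
      apply Submodule.finrank_eq_zero.mp
      omega
    rw [pow_zero, Finset.card_le_one]
    intro x hx y hy
    have := hT x hx y hy
    rw [hK0, Submodule.mem_bot, sub_eq_zero] at this
    exact this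
  | succ d ih =>
    intro K T hK hT hc
    by_cases h1 : T.card ≤ 1
    · exact h1.trans Nat.one_le_two_pow
    · rw [Finset.card_le_one] at h1
      push Not at h1
      obtain ⟨x, hx, y, hy, hxy⟩ := h1
      obtain ⟨i, hi⟩ := Function.ne_iff.mp hxy
      obtain ⟨c, c', hcc⟩ := hc i
      let K' : Submodule ℝ (V → ℝ) := K ⊓ LinearMap.ker (LinearMap.proj i : (V → ℝ) →ₗ[ℝ] ℝ)
      have hK' : finrank ℝ K' ≤ d := by
        have h2 : K' < K := by
          refine lt_of_le_of_ne inf_le_left ?_
          intro h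
          have h3 : x - y ∈ K' := by
            rw [h]
            exact hT x hx y hy
          have h4 : (x - y) i = 0 := h3.2
          rw [Pi.sub_apply, sub_eq_zero] at h4
          exact hi h4
        have := Submodule.finrank_lt_finrank_of_lt h2
        omega
      have key : ∀ e : ℝ, (T.filter (fun z => z i = e)).card ≤ 2 ^ d := by
        intro e
        apply ih K' _ hK'
        · intro z hz w hw
          rw [Finset.mem_filter] at hz hw
          refine ⟨hT z hz.1 w hw.1, ?_⟩
          have : (z - w) i = 0 := by rw [Pi.sub_apply, hz.2, hw.2, sub_self]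
          exact this
        · intro j
          obtain ⟨a, a', ha⟩ := hc j
          exact ⟨a, a', fun z hz => ha z (Finset.mem_filter.mp hz).1⟩
      have hsub : T ⊆ T.filter (fun z => z i = c) ∪ T.filter (fun z => z i = c') := by
        intro z hz
        rw [Finset.mem_union, Finset.mem_filter, Finset.mem_filter]
        rcases hcc z hz with h | h
        · exact Or.inl ⟨hz, h⟩
        · exact Or.inr ⟨hz, h⟩
      calc T.card ≤ _ := Finset.card_le_card hsub
        _ ≤ _ := Finset.card_union_le _ _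
        _ ≤ 2 ^ d + 2 ^ d := add_le_add (key c) (key c')
        _ = 2 ^ (d + 1) := by ring

/-- Entries `±1`. -/
def PM (N : V → V → ℝ) : Prop := ∀ i j, N i j = 1 ∨ N i j = -1

theorem PM.tr {N : V → V → ℝ} (h : PM N) : PM (tr N) := fun i j => h j i

/-- The columns `b`, `b'` agree on `A` up to sign. -/
def Par (N : V → V → ℝ) (A : Finset V) (b b' : V) : Prop :=
  ∃ s : ℝ, s * s = 1 ∧ ∀ a ∈ A, N a b = s * N a b'

theorem Par.refl (N : V → V → ℝ) (A : Finset V) (b : V) : Par N A b b := ⟨1, by norm_num, by simp⟩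

theorem Par.symm {N : V → V → ℝ} {A : Finset V} {b b' : V} (h : Par N A b b') :
    Par N A b' b := by
  obtain ⟨s, hs, h⟩ := h
  refine ⟨s, hs, fun a ha => ?_⟩
  rw [h a ha, ← mul_assoc, hs, one_mul]

theorem Par.trans {N : V → V → ℝ} {A : Finset V} {b b' b'' : V} (h : Par N A b b')
    (h' : Par N A b' b'') : Par N A b b'' := by
  obtain ⟨s, hs, h⟩ := h
  obtain ⟨t, ht, h'⟩ := h'
  refine ⟨s * t, ?_, fun a ha => ?_⟩
  · calc s * t * (s * t) = (s * s) * (t * t) := by ring
      _ = 1 := by rw [hs, ht]; norm_num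
  · rw [h a ha, h' a ha, mul_assoc]

theorem Par.mono {N : V → V → ℝ} {A' A : Finset V} (hA : A' ⊆ A) {b b' : V}
    (h : Par N A b b') : Par N A' b b' := by
  obtain ⟨s, hs, h⟩ := h
  exact ⟨s, hs, fun a ha => h a (hA ha)⟩

theorem sq_one {s : ℝ} (hs : s * s = 1) : s = 1 ∨ s = -1 := mul_self_eq_one_iff.mp hs

theorem pm_ne {x y s : ℝ} (hs : s * s = 1) (hx : x = 1 ∨ x = -1) (hy : y = 1 ∨ y = -1)
    (h : x ≠ s * y) : x = -s * y := by
  rcases sq_one hs with rfl | rfl <;> rcases hx with rfl | rfl <;> rcases hy with rfl | rfl <;>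
    first
      | (exfalso; norm_num at h; done)
      | norm_num

end Pool.Agent.Helper6.LR
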