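import Pool.Agent.Helper6.LR.KW

set_option linter.unusedSectionVars false

/-!
# Nearly orthogonal columns

If all pairs of different columns in `B` are nearly orthogonal on `A`, then there are few of them.
-/

namespace Pool.Agent.Helper6.LR

open Finset Module

variable {V : Type*} [Fintype V] [DecidableEq V]

theorem multichoose_lt {R k : ℕ} (hk : 1 ≤ k) (hR : R ≤ 16 * k) :
    R.multichoose k < 64 ^ k := by
  have h1 : R.multichoose k ≤ (17 * k).choose k := by
    rcases Nat.eq_zero_or_pos R with h0 | hR0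
    · subst h0
      obtain ⟨k', rfl⟩ := Nat.exists_eq_add_of_le' hk
      rw [Nat.multichoose_zero_succ]
      exact Nat.zero_le _
    · rw [Nat.multichoose_eq]
      apply Nat.choose_le_choose
      omega
  have h2 : ((17 * k).choose k : ℝ) ≤ (17 * k : ℝ) ^ k / (k.factorial : ℝ) := by
    have := Nat.choose_le_pow_div (α := ℝ) k (17 * k)
    simpa using this
  have h3 : (k : ℝ) ^ k / (k.factorial : ℝ) ≤ Real.exp k :=
    Real.pow_div_factorial_le_exp _ (Nat.cast_nonneg k) k
  have h4 : ((17 * k : ℝ)) ^ k / (k.factorial : ℝ) ≤ (17 * Real.exp 1) ^ k := by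
    rw [mul_pow, mul_pow, mul_div_assoc]
    apply mul_le_mul_of_nonneg_left _ (by positivity)
    rw [← Real.exp_nat_mul, mul_one]
    exact h3
  have h5 : (17 * Real.exp 1) ^ k < (64 : ℝ) ^ k := by
    apply pow_lt_pow_left₀ _ (by positivity) (by omega)
    have := Real.exp_one_lt_d9
    linarith
  have h6 : ((R.multichoose k : ℕ) : ℝ) < ((64 ^ k : ℕ) : ℝ) := by
    push_cast
    calc ((R.multichoose k : ℕ) : ℝ) ≤ ((17 * k).choose k : ℝ) := by exact_mod_cast h1
      _ ≤ _ := h2
      _ ≤ _ := h4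
      _ < _ := h5
  exact_mod_cast h6

/-- The inner product of two columns on `A`. -/
def ip (N : V → V → ℝ) (A : Finset V) (b b' : V) : ℝ := ∑ a ∈ A, N a b * N a b'

theorem ip_self {N : V → V → ℝ} (hN : PM N) (A : Finset V) (b : V) : ip N A b b = A.card := by
  rw [ip, Finset.sum_congr rfl (g := fun _ => (1 : ℝ))]
  · simp
  · intro a _
    rcases hN a b with h | h <;> rw [h] <;> norm_num

/-- Rank factorisation of the inner product. -/
theorem ip_factor (N : V → V → ℝ) (A B : Finset V) :
    ∃ p q : V → Fin (rk N A B) → ℝ, ∀ b ∈ B, ∀ b', ip N A b b' = ∑ j, p b j * q b' j := by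
  classical
  let e := Module.finBasis ℝ (CS N A B)
  refine ⟨fun b j => if hb : b ∈ B then e.repr ⟨P A (col N b), mem_CS N A hb⟩ j else 0,
    fun b' j => ∑ a ∈ A, (e j : V → ℝ) a * N a b', ?_⟩
  intro b hb b'
  simp only [dif_pos hb]
  have h1 : ∀ a ∈ A, N a b = ∑ j, e.repr ⟨P A (col N b), mem_CS N A hb⟩ j * (e j : V → ℝ) a := by
    intro a ha
    have h2 := e.sum_repr ⟨P A (col N b), mem_CS N A hb⟩
    calc N a b = (P A (col N b)) a := by rw [P_mem ha, col]
      _ = ((∑ i, e.repr ⟨P A (col N b), mem_CS N A hb⟩ i • e i : CS N A B) : V → ℝ) a := by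
          rw [h2]
      _ = _ := by
          rw [Submodule.coe_sum, Finset.sum_apply]
          rfl
  rw [ip, Finset.sum_congr rfl (fun a ha => by rw [h1 a ha])]
  simp_rw [Finset.sum_mul, Finset.mul_sum]
  rw [Finset.sum_comm]
  apply Finset.sum_congr rfl
  intro j _
  apply Finset.sum_congr rfl
  intro a _
  ring

theorem bias {N : V → V → ℝ} (hN : PM N) {A B : Finset V} (hA : A.Nonempty) {k : ℕ}
    (hk : 1 ≤ k) (hR : rk N A B ≤ 16 * k)
    (hb : ∀ b ∈ B, ∀ b' ∈ B, b ≠ b' → 64 * |ip N A b b'| ≤ A.card) : B.card < 64 ^ k := by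
  classical
  set D := (rk N A B).multichoose k with hD
  have hDlt : D < 64 ^ k := multichoose_lt hk hR
  by_contra hcon
  push Not at hcon
  obtain ⟨S, hSB, hScard⟩ := Finset.exists_subset_card_eq (show D + 1 ≤ B.card by omega)
  obtain ⟨p, q, hpq⟩ := ip_factor N A B
  let X : Matrix S (Sym (Fin (rk N A B)) k) ℝ := Matrix.of fun b m =>
    (m.1.countPerms : ℝ) * (m.1.map (p b.1)).prod
  let Y : Matrix (Sym (Fin (rk N A B)) k) S ℝ := Matrix.of fun m b => (m.1.map (q b.1)).prod
  let H : Matrix S S ℝ := Matrix.of fun b b' => (ip N A b.1 b'.1) ^ k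
  have hH : H = X * Y := by
    ext b b'
    simp only [H, X, Y, Matrix.of_apply, Matrix.mul_apply]
    rw [hpq b.1 (hSB b.2) b'.1, Finset.sum_pow, Finset.sym_univ]
    apply Finset.sum_congr rfl
    intro m _
    rw [mul_assoc]
    congr 1
    rw [Multiset.prod_map_mul]
  have hApos : (0 : ℝ) < A.card := by exact_mod_cast hA.card_pos
  have hdet : H.det ≠ 0 := by
    apply det_ne_zero_of_sum_row_lt_diag
    intro b
    have h1 : ‖H b b‖ = (A.card : ℝ) ^ k := by
      simp only [H, Matrix.of_apply]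
      rw [ip_self hN, Real.norm_eq_abs, abs_of_nonneg (by positivity)]
    rw [h1]
    have h2 : ∀ b' ∈ Finset.univ.erase b, ‖H b b'‖ ≤ ((A.card : ℝ) / 64) ^ k := by
      intro b' hb'
      simp only [H, Matrix.of_apply]
      rw [norm_pow, Real.norm_eq_abs]
      apply pow_le_pow_left₀ (abs_nonneg _)
      have hne : b.1 ≠ b'.1 := by
        intro h
        exact (Finset.ne_of_mem_erase hb') (Subtype.ext h).symm
      have := hb b.1 (hSB b.2) b'.1 (hSB b'.2) hne
      linarith
    have h3 : (Finset.univ.erase b).card = D := by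
      rw [Finset.card_erase_of_mem (Finset.mem_univ _), Finset.card_univ, Fintype.card_coe,
        hScard]
      rfl
    calc ∑ b' ∈ Finset.univ.erase b, ‖H b b'‖ ≤
          ∑ b' ∈ Finset.univ.erase b, ((A.card : ℝ) / 64) ^ k := Finset.sum_le_sum h2
      _ = D * ((A.card : ℝ) / 64) ^ k := by rw [Finset.sum_const, h3, nsmul_eq_mul]
      _ = (D / 64 ^ k) * (A.card : ℝ) ^ k := by rw [div_pow]; ring
      _ < 1 * (A.card : ℝ) ^ k := by
          apply mul_lt_mul_of_pos_right _ (by positivity)
          rw [div_lt_one (by positivity)]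
          exact_mod_cast hDlt
      _ = (A.card : ℝ) ^ k := one_mul _
  have hrank : H.rank = D + 1 := by
    have hu : IsUnit H := by
      rw [Matrix.isUnit_iff_isUnit_det]
      exact isUnit_iff_ne_zero.mpr hdet
    rw [Matrix.rank_of_isUnit H hu, Fintype.card_coe, hScard]
  have hrank2 : H.rank ≤ D := by
    rw [hH]
    calc (X * Y).rank ≤ X.rank := Matrix.rank_mul_le_left X Y
      _ ≤ Fintype.card (Sym (Fin (rk N A B)) k) := Matrix.rank_le_card_width X
      _ = D := by
          rw [Sym.card_sym_eq_multichoose, Fintype.card_fin]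
  omega

end Pool.Agent.Helper6.LR
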