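import Pool.Agent.Helper6.LR.Rect

set_option linter.unusedSectionVars false

/-!
# From a rectangle of rank one to a colouring
-/

namespace Pool.Agent.Helper6.LR

open Finset Module

variable {V : Type*} [Fintype V] [DecidableEq V]

/-- Different columns are different. -/
def Inj (N : V → V → ℝ) : Prop := ∀ i j, (∀ a, N a i = N a j) → i = j

theorem colW_two {N : V → V → ℝ} (hI : Inj N) (X : Finset V) : ColW N univ X 2 := by
  classical
  intro b _ S _ hp
  have hsig : ∀ b' : V, ∃ s : ℝ, s * s = 1 ∧ (b' ∈ S → ∀ a, N a b = s * N a b') := by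
    intro b'
    by_cases hb' : b' ∈ S
    · obtain ⟨s, hs, h⟩ := hp b' hb'
      exact ⟨s, hs, fun _ a => h a (mem_univ a)⟩
    · exact ⟨1, by norm_num, fun h => absurd h hb'⟩
  choose s hs hsb using hsig
  have h2 : S.card ≤ ({1, -1} : Finset ℝ).card := by
    apply Finset.card_le_card_of_injOn s
    · intro b' _
      have := sq_one (hs b')
      simpa using this
    · intro c hc c' hc' hcc
      apply hI
      intro a
      have h3 := hsb c hc a
      have h4 := hsb c' hc' a
      rw [h3] at h4
      have h5 : s c * N a c = s c * N a c' := by rw [h4, hcc]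
      calc N a c = (s c * s c) * N a c := by rw [hs, one_mul]
        _ = s c * (s c * N a c) := by ring
        _ = s c * (s c * N a c') := by rw [h5]
        _ = (s c * s c) * N a c' := by ring
        _ = N a c' := by rw [hs, one_mul]
  refine h2.trans ?_
  exact (Finset.card_le_two)

/-- Number of different patterns on a set `X` of coordinates. -/
theorem patterns_le {N : V → V → ℝ} (hN : PM N) (hs : tr N = N) (hI : Inj N) (X : Finset V) :
    (univ.image (fun i => P X (col N i))).card * X.card ≤
      4 * (rk N X univ * 2 ^ rk N X univ) := by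
  classical
  obtain ⟨V', _, hredV, hrepV⟩ := exists_reps (Par N X) (Par.refl _ _)
    (fun _ _ h => h.symm) univ
  obtain ⟨X', hX', hredX, hrepX⟩ := exists_reps (Par N univ) (Par.refl _ _)
    (fun _ _ h => h.symm) X
  have h1 : X.card ≤ 2 * X'.card := card_le_of_reps (colW_two hI X) hX' hrepX
  -- the reduced matrix `N[X', V']`
  have hred1 : Red (tr N) V' X' := by
    refine red_rows (A := X') (B := univ) (Finset.Subset.refl _) ?_ ?_
    · rw [hs]
      exact hredX
    · intro b hb
      obtain ⟨b', hb', hp⟩ := hrepV b hb
      exact ⟨b', hb', hp.mono hX'⟩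
  have hred2 : Red N X' V' := by
    have hh : Red (tr (tr N)) X' V' := by
      refine red_rows (N := tr N) (A := V') (B := X) (Finset.Subset.refl _) ?_ ?_
      · exact hredV
      · intro a ha
        obtain ⟨a', ha', hp⟩ := hrepX a ha
        refine ⟨a', ha', ?_⟩
        rw [hs]
        exact hp.mono (Finset.subset_univ _)
    exact hh
  have hrk : rk N X' V' ≤ rk N X univ :=
    (rk_mono_left N V' hX').trans (rk_mono_right N X (Finset.subset_univ _))
  have h3 := kw (rk N X univ) N hN X' V' hrk hred2 hred1
  have h4 : (univ.image (fun i => P X (col N i))).card ≤ 2 * V'.card := by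
    have hsub : univ.image (fun i => P X (col N i)) ⊆
        V'.image (fun i => P X (col N i)) ∪ V'.image (fun i => - P X (col N i)) := by
      intro x hx
      obtain ⟨i, _, rfl⟩ := Finset.mem_image.mp hx
      obtain ⟨v, hv, s, hs2, hp⟩ := hrepV i (mem_univ i)
      rw [Finset.mem_union]
      rcases sq_one hs2 with rfl | rfl
      · left
        rw [Finset.mem_image]
        refine ⟨v, hv, ?_⟩
        rw [P_eq_iff]
        intro a ha
        rw [col, col, hp a ha, one_mul]
      · right
        rw [Finset.mem_image]
        refine ⟨v, hv, ?_⟩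
        rw [← map_neg, P_eq_iff]
        intro a ha
        rw [Pi.neg_apply, col, col, hp a ha]
        ring
    calc _ ≤ _ := Finset.card_le_card hsub
      _ ≤ _ := Finset.card_union_le _ _
      _ ≤ V'.card + V'.card := add_le_add Finset.card_image_le Finset.card_image_le
      _ = 2 * V'.card := by ring
  calc (univ.image (fun i => P X (col N i))).card * X.card ≤
        (2 * V'.card) * (2 * X'.card) := Nat.mul_le_mul h4 h1
    _ = 4 * (X'.card * V'.card) := by ring
    _ ≤ _ := Nat.mul_le_mul_left _ h3

theorem rk_union_right (N : V → V → ℝ) (A B C : Finset V) :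
    rk N A (B ∪ C) ≤ rk N A B + rk N A C := by
  have h : CS N A (B ∪ C) = CS N A B ⊔ CS N A C := by
    rw [CS, CS, CS, ← Submodule.span_union, ← Set.image_union, Finset.coe_union]
  rw [rk, h]
  exact Submodule.finrank_add_le_finrank_add_finrank _ _

theorem rk_union_left (N : V → V → ℝ) (A B C : Finset V) :
    rk N (A ∪ B) C ≤ rk N A C + rk N B C := by
  rw [← rk_tr N (A ∪ B), ← rk_tr N A, ← rk_tr N B]
  exact rk_union_right _ _ _ _

theorem rk_const {N : V → V → ℝ} {A B : Finset V} {x : V → ℝ}
    (h : ∀ b ∈ B, P A (col N b) = x) : rk N A B ≤ 1 := by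
  have hle1 : CS N A B ≤ Submodule.span ℝ {x} := by
    rw [CS, Submodule.span_le]
    rintro _ ⟨b, hb, rfl⟩
    show P A (col N b) ∈ Submodule.span ℝ {x}
    rw [h b hb]
    exact Submodule.mem_span_singleton_self x
  calc rk N A B ≤ finrank ℝ (Submodule.span ℝ {x}) := Submodule.finrank_mono hle1
    _ ≤ 1 := by
        refine (finrank_span_le_card _).trans ?_
        simp

theorem colour {N : V → V → ℝ} (hN : PM N) (hs : tr N = N) (hI : Inj N) (hd : ∀ i, N i i = 1)
    {A B : Finset V} (hAB : rk N A B ≤ 1) :
    ∃ (m : ℕ) (c : V → Fin m), (∀ i j, c i = c j → N i j = 1) ∧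
      m * (A.card * B.card) ≤ 128 * (rk N univ univ ^ 2 * 2 ^ rk N univ univ) := by
  classical
  set R := rk N univ univ with hR
  have hsym : ∀ X Y : Finset V, rk N X Y = rk N Y X := by
    intro X Y
    rw [← rk_tr N X Y, hs]
  set eA := rk N A univ with heA
  set eB := rk N B univ with heB
  let fA : V → (V → ℝ) := fun i => P A (col N i)
  let fB : V → (V → ℝ) := fun i => P B (col N i)
  let S : V → Finset V := fun j => univ.filter (fun i => fA i = fA j ∧ fB i = fB j)
  let c : V → ((V → ℝ) × (V → ℝ)) × (V → ℝ) := fun j => ((fA j, fB j), P (S j) (col N j))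
  -- the rank of principal submatrices
  have hrkS : ∀ j, rk N (S j) (S j) + eA + eB ≤ R + 3 := by
    intro j
    have h1 : rk N A (S j) ≤ 1 := rk_const (x := fA j) (by
      intro b hb
      exact (Finset.mem_filter.mp hb).2.1)
    have h2 : rk N (S j) B ≤ 1 := by
      rw [hsym]
      exact rk_const (x := fB j) (by
        intro b hb
        exact (Finset.mem_filter.mp hb).2.2)
    have h3 := frobenius N (Finset.subset_univ (S j ∪ A)) (Finset.subset_univ B)
    have h4 := frobenius N (Finset.subset_union_right (s₁ := S j) (s₂ := A))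
      (Finset.subset_univ (S j))
    have h5 := rk_union_left N (S j) A B
    have h6 := rk_mono_left N (S j) (Finset.subset_union_left (s₁ := S j) (s₂ := A))
    have h7 : rk N univ B = eB := hsym _ _
    omega
  have hle : eA + eB ≤ R + 1 := by
    have h3 := frobenius N (Finset.subset_univ A) (Finset.subset_univ B)
    have h7 : rk N univ B = eB := hsym _ _
    omega
  -- counting the colours
  have hcount : (univ.image c).card ≤
      2 ^ (R + 3 - eA - eB) * ((univ.image fA).card * (univ.image fB).card) := by
    have h1 : (univ.image c).card ≤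
        2 ^ (R + 3 - eA - eB) * ((univ.image c).image Prod.fst).card := by
      apply Finset.card_le_mul_card_image
      intro x hx
      obtain ⟨y, hy, rfl⟩ := Finset.mem_image.mp hx
      obtain ⟨j, _, rfl⟩ := Finset.mem_image.mp hy
      have h2 : ((univ.image c).filter (fun z => z.1 = (c j).1)) ⊆
          ((S j).image (fun i => P (S j) (col N i))).image (fun t => ((c j).1, t)) := by
        intro z hz
        rw [Finset.mem_filter] at hz
        obtain ⟨hz1, hz2⟩ := hz
        obtain ⟨i, _, rfl⟩ := Finset.mem_image.mp hz1
        have h3 : fA i = fA j ∧ fB i = fB j := by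
          have := hz2
          simp only [c, Prod.mk.injEq] at this
          exact this
        have h4 : S i = S j := by
          ext k
          simp only [S, Finset.mem_filter, Finset.mem_univ, true_and]
          rw [h3.1, h3.2]
        rw [Finset.mem_image]
        refine ⟨P (S j) (col N i), Finset.mem_image.mpr ⟨i, ?_, rfl⟩, ?_⟩
        · simp only [S, Finset.mem_filter, Finset.mem_univ, true_and]
          exact h3
        · simp only [c]
          rw [h4, h3.1, h3.2]
      calc ((univ.image c).filter (fun z => z.1 = (c j).1)).card ≤ _ := Finset.card_le_card h2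
        _ ≤ _ := Finset.card_image_le
        _ ≤ 2 ^ rk N (S j) (S j) := card_patterns hN _ _
        _ ≤ 2 ^ (R + 3 - eA - eB) := by
            apply Nat.pow_le_pow_right (by norm_num)
            have := hrkS j
            omega
    have h2 : ((univ.image c).image Prod.fst).card ≤
        (univ.image fA).card * (univ.image fB).card := by
      rw [← Finset.card_product]
      apply Finset.card_le_card
      intro x hx
      obtain ⟨y, hy, rfl⟩ := Finset.mem_image.mp hx
      obtain ⟨j, _, rfl⟩ := Finset.mem_image.mp hy
      rw [Finset.mem_product]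
      exact ⟨Finset.mem_image_of_mem _ (mem_univ j), Finset.mem_image_of_mem _ (mem_univ j)⟩
    exact h1.trans (Nat.mul_le_mul_left _ h2)
  have hpA : (univ.image fA).card * A.card ≤ 4 * (eA * 2 ^ eA) := patterns_le hN hs hI A
  have hpB : (univ.image fB).card * B.card ≤ 4 * (eB * 2 ^ eB) := patterns_le hN hs hI B
  have heAR : eA ≤ R := rk_mono_left N univ (Finset.subset_univ A)
  have heBR : eB ≤ R := rk_mono_left N univ (Finset.subset_univ B)
  refine ⟨(univ.image c).card, fun i => (univ.image c).equivFin
    ⟨c i, Finset.mem_image_of_mem _ (mem_univ i)⟩, ?_, ?_⟩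
  · intro i j hij
    have h1 : c i = c j := congrArg Subtype.val ((univ.image c).equivFin.injective hij)
    have h2 : fA i = fA j ∧ fB i = fB j := by
      have := congrArg Prod.fst h1
      simp only [c, Prod.mk.injEq] at this
      exact this
    have h3 : P (S i) (col N i) = P (S j) (col N j) := congrArg Prod.snd h1
    have h4 : S i = S j := by
      ext k
      simp only [S, Finset.mem_filter, Finset.mem_univ, true_and]
      rw [h2.1, h2.2]
    rw [h4] at h3
    have h5 : i ∈ S j := by
      simp only [S, Finset.mem_filter, Finset.mem_univ, true_and]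
      exact h2
    have h6 := P_eq_iff.mp h3 i h5
    simp only [col] at h6
    rw [← h6]
    exact hd i
  · calc (univ.image c).card * (A.card * B.card) ≤
          (2 ^ (R + 3 - eA - eB) * ((univ.image fA).card * (univ.image fB).card)) *
            (A.card * B.card) := Nat.mul_le_mul_right _ hcount
      _ = 2 ^ (R + 3 - eA - eB) * (((univ.image fA).card * A.card) *
            ((univ.image fB).card * B.card)) := by ring
      _ ≤ 2 ^ (R + 3 - eA - eB) * ((4 * (eA * 2 ^ eA)) * (4 * (eB * 2 ^ eB))) :=
          Nat.mul_le_mul_left _ (Nat.mul_le_mul hpA hpB)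
      _ = 16 * (eA * eB) * (2 ^ (R + 3 - eA - eB) * 2 ^ eA * 2 ^ eB) := by ring
      _ = 16 * (eA * eB) * 2 ^ (R + 3) := by
          rw [← pow_add, ← pow_add]
          congr 2
          omega
      _ ≤ 16 * (R * R) * 2 ^ (R + 3) := by
          apply Nat.mul_le_mul_right
          exact Nat.mul_le_mul_left _ (Nat.mul_le_mul heAR heBR)
      _ = 128 * (R ^ 2 * 2 ^ R) := by ring

end Pool.Agent.Helper6.LR
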