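import Pool.Agent.Helper6.LR.Graph

set_option linter.unusedSectionVars false

/-!
# The number of labelled graphs of given rank
-/

namespace Pool.Agent.Helper6.LR

open Finset Module

/-- A symmetric matrix is determined by columns spanning its column space. -/
theorem sym_det {V : Type*} [Fintype V] {r : ℕ} {A A' : Matrix V V ℝ}
    (hA : A.transpose = A) (hA' : A'.transpose = A') {f : Fin r → V}
    (hf : ∀ v, A.col v ∈ Submodule.span ℝ (Set.range fun j => A.col (f j)))
    (hf' : ∀ v, A'.col v ∈ Submodule.span ℝ (Set.range fun j => A'.col (f j)))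
    (h : ∀ j, A.col (f j) = A'.col (f j)) : A = A' := by
  classical
  have hsym : ∀ i j, A i j = A j i := fun i j => congrFun (congrFun hA j) i
  have hsym' : ∀ i j, A' i j = A' j i := fun i j => congrFun (congrFun hA' j) i
  have hW : (fun j => A'.col (f j)) = fun j => A.col (f j) := by
    funext j
    exact (h j).symm
  rw [hW] at hf'
  -- a vector of the column space vanishing at all `f j` is zero
  have key : ∀ w ∈ Submodule.span ℝ (Set.range fun j => A.col (f j)),
      (∀ j, w (f j) = 0) → w = 0 := by
    intro w hw hw0
    have hrange : w ∈ LinearMap.range A.mulVecLin := by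
      rw [Matrix.range_mulVecLin]
      refine Submodule.span_mono ?_ hw
      rintro _ ⟨j, rfl⟩
      exact ⟨f j, rfl⟩
    obtain ⟨c, hc⟩ := hrange
    have hwv : ∀ v, w v = ∑ u, A.col v u * c u := by
      intro v
      rw [← hc]
      simp only [Matrix.mulVecLin_apply, Matrix.mulVec, dotProduct, Matrix.col_apply]
      apply Finset.sum_congr rfl
      intro u _
      rw [hsym]
    let φ : (V → ℝ) →ₗ[ℝ] ℝ :=
      { toFun := fun x => ∑ u, x u * c u
        map_add' := by
          intro x y
          rw [← Finset.sum_add_distrib]
          apply Finset.sum_congr rfl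
          intro u _
          rw [Pi.add_apply]
          ring
        map_smul' := by
          intro a x
          rw [RingHom.id_apply, smul_eq_mul, Finset.mul_sum]
          apply Finset.sum_congr rfl
          intro u _
          rw [Pi.smul_apply, smul_eq_mul]
          ring }
    have hφ : Submodule.span ℝ (Set.range fun j => A.col (f j)) ≤ LinearMap.ker φ := by
      rw [Submodule.span_le]
      rintro _ ⟨j, rfl⟩
      have : φ (A.col (f j)) = 0 := by
        rw [← hw0 j, hwv (f j)]
        rfl
      exact this
    funext v
    rw [hwv v]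
    exact hφ (hf v)
  ext u v
  have h1 : A.col v - A'.col v = 0 := by
    apply key _ (Submodule.sub_mem _ (hf v) (hf' v))
    intro j
    have h2 := congrFun (h j) v
    simp only [Matrix.col_apply] at h2
    simp only [Pi.sub_apply, Matrix.col_apply]
    rw [hsym, hsym', h2, sub_self]
  have h3 := congrFun h1 u
  simp only [Pi.sub_apply, Matrix.col_apply, Pi.zero_apply] at h3
  linarith

open Classical in
/-- The number of labelled graphs of rank `r` on `n` vertices. -/
theorem card_rank_le (n r : ℕ) :
    (Finset.univ.filter fun G : SimpleGraph (Fin n) => (G.adjMatrix ℝ).rank = r).card ≤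
      n ^ r * 2 ^ (n * r) := by
  have hex : ∀ G : {G : SimpleGraph (Fin n) // (G.adjMatrix ℝ).rank = r},
      ∃ f : Fin r → Fin n, ∀ v, (G.1.adjMatrix ℝ).col v ∈ Submodule.span ℝ
        (Set.range fun j => (G.1.adjMatrix ℝ).col (f j)) := by
    rintro ⟨G, hr⟩
    rw [Matrix.rank_eq_finrank_span_cols] at hr
    obtain ⟨g, hg1, hg2, _⟩ :=
      Submodule.exists_fun_fin_finrank_span_eq ℝ (Set.range (G.adjMatrix ℝ).col)
    have hg3 : ∀ i, ∃ v, (G.adjMatrix ℝ).col v = g i := fun i => hg1 i
    choose f hf using hg3
    subst hr
    refine ⟨f, fun v => ?_⟩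
    have h1 : (fun j => (G.adjMatrix ℝ).col (f j)) = g := by
      funext j
      exact hf j
    rw [h1, hg2]
    exact Submodule.subset_span ⟨v, rfl⟩
  choose f hf using hex
  let Φ : {G : SimpleGraph (Fin n) // (G.adjMatrix ℝ).rank = r} →
      (Fin r → Fin n) × (Fin n → Fin r → Bool) :=
    fun G => (f G, fun v j => decide (G.1.Adj v (f G j)))
  have hΦ : Function.Injective Φ := by
    intro G G' h
    have h1 : f G = f G' := congrArg Prod.fst h
    have h2 : ∀ v j, decide (G.1.Adj v (f G j)) = decide (G'.1.Adj v (f G' j)) := by
      intro v j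
      exact congrFun (congrFun (congrArg Prod.snd h) v) j
    apply Subtype.ext
    have h3 : G.1.adjMatrix ℝ = G'.1.adjMatrix ℝ := by
      apply sym_det (f := f G) (SimpleGraph.transpose_adjMatrix _)
        (SimpleGraph.transpose_adjMatrix _) (hf G)
      · have := hf G'
        rwa [← h1] at this
      · intro j
        funext v
        have h4 := h2 v j
        rw [← h1, decide_eq_decide] at h4
        simp only [Matrix.col_apply, SimpleGraph.adjMatrix_apply]
        by_cases h5 : G.1.Adj v (f G j)
        · rw [if_pos h5, if_pos (h4.mp h5)]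
        · rw [if_neg h5, if_neg (fun h6 => h5 (h4.mpr h6))]
    ext u v
    have h4 := congrFun (congrFun h3 u) v
    simp only [SimpleGraph.adjMatrix_apply] at h4
    by_cases h5 : G.1.Adj u v <;> by_cases h6 : G'.1.Adj u v <;> simp [h5, h6] at h4 ⊢
  rw [← Fintype.card_subtype]
  calc Fintype.card {G : SimpleGraph (Fin n) // (G.adjMatrix ℝ).rank = r} ≤
        Fintype.card ((Fin r → Fin n) × (Fin n → Fin r → Bool)) :=
          Fintype.card_le_of_injective Φ hΦ
    _ = n ^ r * 2 ^ (n * r) := by
        rw [Fintype.card_prod, Fintype.card_fun, Fintype.card_fun, Fintype.card_fun,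
          Fintype.card_fin, Fintype.card_fin, Fintype.card_bool, ← pow_mul, mul_comm r n]

end Pool.Agent.Helper6.LR
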