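import Pool.Agent.Helper6.LR.Colour

set_option linter.unusedSectionVars false

/-!
# The chromatic number of twin-free graphs of large order
-/

namespace Pool.Agent.Helper6.LR

open Finset Module

variable {V : Type*} [Fintype V] [DecidableEq V]

/-- The `±1` matrix of a graph. -/
def sg (G : SimpleGraph V) [DecidableRel G.Adj] : V → V → ℝ := fun i j => if G.Adj i j then -1 else 1

theorem sg_pm (G : SimpleGraph V) [DecidableRel G.Adj] : PM (sg G) := by
  intro i j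
  by_cases h : G.Adj i j
  · right; simp [sg, h]
  · left; simp [sg, h]

theorem sg_tr (G : SimpleGraph V) [DecidableRel G.Adj] : tr (sg G) = sg G := by
  funext i j
  simp [tr, sg, G.adj_comm]

theorem sg_diag (G : SimpleGraph V) [DecidableRel G.Adj] (i : V) : sg G i i = 1 := by
  simp [sg]

theorem sg_eq_one {G : SimpleGraph V} [DecidableRel G.Adj] {i j : V} (h : sg G i j = 1) :
    ¬ G.Adj i j := by
  intro h'
  simp [sg, h'] at h
  norm_num at h

/-- Twin-free graphs: non-adjacent vertices have different neighbourhoods. -/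
def TwinFree (G : SimpleGraph V) : Prop :=
  ∀ u v : V, u ≠ v → ¬ G.Adj u v → G.neighborSet u ≠ G.neighborSet v

theorem sg_inj {G : SimpleGraph V} [DecidableRel G.Adj] (hG : TwinFree G) : Inj (sg G) := by
  intro i j h
  by_contra hne
  have hN : G.neighborSet i = G.neighborSet j := by
    ext a
    rw [SimpleGraph.mem_neighborSet, SimpleGraph.mem_neighborSet, G.adj_comm i, G.adj_comm j]
    have h1 := h a
    by_cases h2 : G.Adj a i <;> by_cases h3 : G.Adj a j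
    · simp [h2, h3]
    · simp only [sg, h2, h3, if_true, if_false] at h1
      norm_num at h1
    · simp only [sg, h2, h3, if_true, if_false] at h1
      norm_num at h1
    · simp [h2, h3]
  have hnadj : ¬ G.Adj i j := by
    intro h4
    have h5 : j ∈ G.neighborSet i := h4
    rw [hN] at h5
    exact G.loopless.irrefl j h5
  exact hG i j hne hnadj hN

theorem rank_smul_le {m n : Type*} [Fintype m] [Fintype n] (c : ℝ) (A : Matrix m n ℝ) :
    (c • A).rank ≤ A.rank := by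
  rw [Matrix.rank, Matrix.rank]
  refine Submodule.finrank_mono ?_
  rintro v ⟨w, rfl⟩
  refine ⟨c • w, ?_⟩
  simp [Matrix.mulVec_smul, Matrix.smul_mulVec]

theorem rank_add_le {m n : Type*} [Fintype m] [Fintype n] (A B : Matrix m n ℝ) :
    (A + B).rank ≤ A.rank + B.rank := by
  rw [Matrix.rank, Matrix.rank, Matrix.rank]
  refine le_trans (Submodule.finrank_mono ?_) (Submodule.finrank_add_le_finrank_add_finrank _ _)
  rintro v ⟨w, rfl⟩
  rw [Matrix.mulVecLin_add, LinearMap.add_apply]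
  exact Submodule.add_mem_sup ⟨w, rfl⟩ ⟨w, rfl⟩

theorem sg_rank (G : SimpleGraph V) [DecidableRel G.Adj] :
    rk (sg G) univ univ ≤ (G.adjMatrix ℝ).rank + 1 := by
  classical
  rw [rk_eq_rank]
  have h1 : (Matrix.of fun i j => if i ∈ (univ : Finset V) ∧ j ∈ (univ : Finset V) then sg G i j
      else 0 : Matrix V V ℝ) = (-2 : ℝ) • G.adjMatrix ℝ +
        Matrix.vecMulVec (fun _ => (1 : ℝ)) (fun _ => (1 : ℝ)) := by
    ext i j
    by_cases h : G.Adj i j
    · simp [sg, h, Matrix.vecMulVec_apply]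
      norm_num
    · simp [sg, h, Matrix.vecMulVec_apply]
  rw [h1]
  refine (rank_add_le _ _).trans ?_
  exact add_le_add (rank_smul_le _ _) (Matrix.rank_vecMulVec_le _ _)

/-- The Kotlov–Lovász bound in the form used here. -/
theorem card_sq_le {G : SimpleGraph V} [DecidableRel G.Adj] (hG : TwinFree G) :
    Fintype.card V ^ 2 ≤ 8 * (((G.adjMatrix ℝ).rank + 1) * 2 ^ (G.adjMatrix ℝ).rank) := by
  have h1 := kw_weighted (sg_pm G) (A := univ) (B := univ) (w1 := 2) (w2 := 2)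
    (by rw [sg_tr]; exact colW_two (sg_inj hG) univ) (colW_two (sg_inj hG) univ)
  rw [Finset.card_univ] at h1
  calc Fintype.card V ^ 2 = Fintype.card V * Fintype.card V := by ring
    _ ≤ 2 * 2 * (rk (sg G) univ univ * 2 ^ rk (sg G) univ univ) := h1
    _ ≤ 2 * 2 * (((G.adjMatrix ℝ).rank + 1) * 2 ^ ((G.adjMatrix ℝ).rank + 1)) := by
        apply Nat.mul_le_mul_left
        exact Nat.mul_le_mul (sg_rank G) (Nat.pow_le_pow_right (by norm_num) (sg_rank G))
    _ = _ := by ring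

theorem chi_le {G : SimpleGraph V} [DecidableRel G.Adj] (hG : TwinFree G) [Nonempty V] :
    (G.chromaticNumber.toNat : ℝ) ≤ 2 ^ 219 * ((G.adjMatrix ℝ).rank + 1) ^ 63 *
      (2 ^ (G.adjMatrix ℝ).rank / (Fintype.card V : ℝ) ^ 2) ^ 61 := by
  classical
  set r := (G.adjMatrix ℝ).rank with hr
  set R := rk (sg G) univ univ with hR
  have hRr : R ≤ r + 1 := sg_rank G
  set n := Fintype.card V with hn
  have hnpos : 0 < n := Fintype.card_pos
  have hnR : (0 : ℝ) < n := by exact_mod_cast hnpos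
  have hw := colW_two (sg_inj hG) univ
  set L : ℝ := (n : ℝ) ^ 2 / (4 * 2 ^ R) with hL
  have hLpos : 0 < L := by positivity
  have hgood := rect (R0 := r + 1) (by omega) (sg_pm G) (A := univ) (B := univ)
    Finset.univ_nonempty Finset.univ_nonempty hRr (w1 := 2) (w2 := 2)
    (by rw [sg_tr]; exact hw) hw hLpos (by
      rw [Finset.card_univ, ← hn, ← hR, hL]
      apply le_of_eq
      push_cast
      field_simp
      norm_num)
  obtain ⟨A, _, B, _, hrk1, hsize⟩ := hgood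
  rw [Finset.card_univ, ← hn] at hsize
  obtain ⟨m, c, hc, hm⟩ := colour (sg_pm G) (sg_tr G) (sg_inj hG) (sg_diag G) hrk1
  have hcol : G.Colorable m := by
    refine ⟨SimpleGraph.Coloring.mk c ?_⟩
    intro u v huv heq
    exact sg_eq_one (hc u v heq) huv
  have hchi : G.chromaticNumber.toNat ≤ m := by
    have h1 := hcol.chromaticNumber_le
    exact ENat.toNat_le_of_le_coe h1
  have hchiR : (G.chromaticNumber.toNat : ℝ) ≤ m := by exact_mod_cast hchi
  refine hchiR.trans ?_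
  have hmR : (m : ℝ) * ((A.card : ℝ) * B.card) ≤ 128 * ((R : ℝ) ^ 2 * 2 ^ R) := by
    exact_mod_cast hm
  set s : ℝ := L ^ 60 / (2 ^ 31 * ((r + 1 : ℕ) : ℝ) ^ 61) * ((n : ℝ) * n) with hs
  have hspos : 0 < s := by positivity
  have h2 : (m : ℝ) * s ≤ 128 * ((R : ℝ) ^ 2 * 2 ^ R) :=
    (mul_le_mul_of_nonneg_left hsize (Nat.cast_nonneg m)).trans hmR
  have h3 : (m : ℝ) ≤ 128 * ((R : ℝ) ^ 2 * 2 ^ R) / s := by
    rw [le_div_iff₀ hspos]
    exact h2
  refine h3.trans ?_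
  have hRle : (R : ℝ) ≤ (r : ℝ) + 1 := by exact_mod_cast hRr
  have h4 : 128 * ((R : ℝ) ^ 2 * 2 ^ R) / s =
      2 ^ 158 * ((R : ℝ) ^ 2 * ((r : ℝ) + 1) ^ 61) * (2 ^ R / (n : ℝ) ^ 2) ^ 61 := by
    rw [hs, hL]
    push_cast
    field_simp
    norm_num
    try ring
  rw [h4]
  have h5 : (2 : ℝ) ^ R ≤ 2 * 2 ^ r := by
    calc (2 : ℝ) ^ R ≤ 2 ^ (r + 1) := pow_le_pow_right₀ (by norm_num) hRr
      _ = 2 * 2 ^ r := by ring
  calc 2 ^ 158 * ((R : ℝ) ^ 2 * ((r : ℝ) + 1) ^ 61) * (2 ^ R / (n : ℝ) ^ 2) ^ 61 ≤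
        2 ^ 158 * (((r : ℝ) + 1) ^ 2 * ((r : ℝ) + 1) ^ 61) *
          ((2 * 2 ^ r) / (n : ℝ) ^ 2) ^ 61 := by gcongr
    _ = 2 ^ 219 * ((r : ℝ) + 1) ^ 63 * (2 ^ r / (n : ℝ) ^ 2) ^ 61 := by
        rw [mul_div_assoc, mul_pow (2 : ℝ) _ 61, ← pow_add]
        norm_num
        ring

/-- The main theorem: `χ(G) ≤ (16 r² 2^r / n²) ^ 61`. -/
theorem chi_bound {G : SimpleGraph V} [DecidableRel G.Adj] (hG : TwinFree G) [Nonempty V]
    (hr : 1 < (G.adjMatrix ℝ).rank) :
    (G.chromaticNumber.toNat : ℝ) ≤ (16 * ((G.adjMatrix ℝ).rank : ℝ) ^ 2 *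
      2 ^ (G.adjMatrix ℝ).rank / (Fintype.card V : ℝ) ^ 2) ^ 61 := by
  refine (chi_le hG).trans ?_
  set r := (G.adjMatrix ℝ).rank with hrdef
  have hr2 : (2 : ℝ) ≤ r := by exact_mod_cast hr
  set n := Fintype.card V with hn
  have h1 : (16 * (r : ℝ) ^ 2 * 2 ^ r / (n : ℝ) ^ 2) ^ 61 =
      16 ^ 61 * ((r : ℝ) ^ 2) ^ 61 * (2 ^ r / (n : ℝ) ^ 2) ^ 61 := by
    rw [mul_div_assoc, mul_pow, mul_pow]
  rw [h1]
  apply mul_le_mul_of_nonneg_right _ (by positivity)
  have h2 : (r : ℝ) + 1 ≤ 3 / 2 * r := by linarith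
  calc (2 : ℝ) ^ 219 * ((r : ℝ) + 1) ^ 63 ≤ 2 ^ 219 * (3 / 2 * r) ^ 63 := by
        gcongr
    _ = (2 ^ 219 * (3 / 2) ^ 63) * (r : ℝ) ^ 63 := by rw [mul_pow]; ring
    _ ≤ (16 ^ 61 * 2 ^ 59) * (r : ℝ) ^ 63 := by
        gcongr ?_ * _
        norm_num
    _ ≤ (16 ^ 61 * (r : ℝ) ^ 59) * (r : ℝ) ^ 63 := by
        gcongr
    _ = 16 ^ 61 * ((r : ℝ) ^ 2) ^ 61 := by ring

end Pool.Agent.Helper6.LR
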