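import Mathlib

/-!
# Isomorphism classes of finite graphs; the class of connected twin-free graphs of rank `r`
-/

namespace Pool.Agent.Helper6.LR

/-- A graph on one of the sets `Fin n`. -/
abbrev FinGraph : Type := Σ n : ℕ, SimpleGraph (Fin n)

/-- Isomorphism of finite graphs. -/
def isoRel : Setoid FinGraph where
  r G H := Nonempty (G.2 ≃g H.2)
  iseqv := ⟨fun _ => ⟨RelIso.refl _⟩, fun ⟨e⟩ => ⟨e.symm⟩, fun ⟨e⟩ ⟨f⟩ => ⟨e.trans f⟩⟩

/-- The set of isomorphism classes of the graphs with property `p`. -/
def isoClasses (p : FinGraph → Prop) : Set (Quotient isoRel) :=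
  {q | ∃ G : FinGraph, p G ∧ Quotient.mk isoRel G = q}

open Classical in
/-- The real rank of the adjacency matrix. -/
noncomputable def grank (G : FinGraph) : ℕ := (G.2.adjMatrix ℝ).rank

/-- The chromatic number. -/
noncomputable def chi (G : FinGraph) : ℕ := G.2.chromaticNumber.toNat

/-- The class of connected twin-free graphs of rank `r`. -/
def InG (r : ℕ) (G : FinGraph) : Prop :=
  G.2.Connected ∧ (∀ u v : Fin G.1, u ≠ v → ¬ G.2.Adj u v → G.2.neighborSet u ≠ G.2.neighborSet v) ∧
    grank G = r

end Pool.Agent.Helper6.LR
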