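import Pool.Agent.Helper6.LR.Count
import Pool.Agent.Helper6.LR.IsoDefs

set_option linter.unusedSectionVars false

/-!
# Isomorphism classes of graphs, and induced subgraphs of a host graph
-/

namespace Pool.Agent.Helper6.LR

open Finset Module

section induced

variable {U : Type} [Fintype U] [DecidableEq U]

/-- The induced subgraph on `X`, as a graph on `Fin X.card`. -/
noncomputable def sub (H : SimpleGraph U) (X : Finset U) : FinGraph :=
  ⟨X.card, H.comap fun i => (X.equivFin.symm i).1⟩

theorem count_classes {H : SimpleGraph U} {K : Finset U}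
    (h2 : ∀ u v, (∀ k ∈ K, H.Adj u k ↔ H.Adj v k) → u = v) {p : FinGraph → Prop}
    (hp : ∀ X, K ⊆ X → p (sub H X)) (hfin : (isoClasses p).Finite) :
    2 ^ (Fintype.card U - K.card) ≤ Fintype.card U ^ K.card * (isoClasses p).ncard := by
  classical
  let F : Finset (Finset U) := Finset.univ.filter fun X => K ⊆ X
  have hFcard : F.card = 2 ^ (Fintype.card U - K.card) := by
    have h1 : F = Finset.Icc K Finset.univ := by
      ext X
      simp [F, Finset.mem_Icc]
    rw [h1, Finset.card_Icc_finset (Finset.subset_univ K), Finset.card_univ]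
  let f : Finset U → Quotient isoRel := fun X => Quotient.mk isoRel (sub H X)
  have hfib : ∀ q ∈ F.image f, (F.filter fun X => f X = q).card ≤ Fintype.card U ^ K.card := by
    intro q hq
    obtain ⟨X0, hX0, rfl⟩ := Finset.mem_image.mp hq
    -- for each `X` in the fibre a map `K → U`
    have hex : ∀ X : Finset U, ∃ g : K → U, K ⊆ X → f X = f X0 →
        ∀ v, v ∈ X ↔ ∃ w ∈ X0, ∀ k : K, H.Adj v k.1 ↔ H.Adj w (g k) := by
      intro X
      by_cases hX : K ⊆ X ∧ f X = f X0
      · obtain ⟨hKX, hfX⟩ := hX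
        have hiso : Nonempty ((sub H X).2 ≃g (sub H X0).2) := Quotient.exact hfX
        obtain ⟨φ⟩ := hiso
        -- the induced map `X → X0`
        let ψ : X → X0 := fun x => X0.equivFin.symm (φ (X.equivFin x))
        let ψ' : X0 → X := fun x => X.equivFin.symm (φ.symm (X0.equivFin x))
        have hψψ' : ∀ x, ψ (ψ' x) = x := by
          intro x
          simp [ψ, ψ']
        have hadj : ∀ x y : X, H.Adj x.1 y.1 ↔ H.Adj (ψ x).1 (ψ y).1 := by
          intro x y
          have h3 := φ.map_rel_iff (a := X.equivFin x) (b := X.equivFin y)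
          have h4 : (sub H X).2.Adj (X.equivFin x) (X.equivFin y) ↔ H.Adj x.1 y.1 := by
            show H.Adj (X.equivFin.symm (X.equivFin x)).1 (X.equivFin.symm (X.equivFin y)).1 ↔ _
            simp
          rw [← h4, ← h3]
          rfl
        refine ⟨fun k => (ψ ⟨k.1, hKX k.2⟩).1, fun _ _ v => ?_⟩
        constructor
        · intro hv
          refine ⟨(ψ ⟨v, hv⟩).1, (ψ ⟨v, hv⟩).2, fun k => ?_⟩
          exact hadj ⟨v, hv⟩ ⟨k.1, hKX k.2⟩
        · rintro ⟨w, hw, hwk⟩
          have h5 : v = (ψ' ⟨w, hw⟩).1 := by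
            apply h2
            intro k hk
            have h6 := hwk ⟨k, hk⟩
            have h7 := hadj (ψ' ⟨w, hw⟩) ⟨k, hKX hk⟩
            rw [hψψ'] at h7
            exact h6.trans h7.symm
          rw [h5]
          exact (ψ' ⟨w, hw⟩).2
      · refine ⟨fun k => k.1, fun h h' => absurd ⟨h, h'⟩ hX⟩
    choose g hg using hex
    calc (F.filter fun X => f X = f X0).card ≤ (Finset.univ : Finset (K → U)).card := by
          apply Finset.card_le_card_of_injOn g
          · intro X _
            exact Finset.mem_coe.mpr (Finset.mem_univ _)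
          · intro X hX Y hY hXY
            have hX' := Finset.mem_filter.mp hX
            have hY' := Finset.mem_filter.mp hY
            have hKX : K ⊆ X := (Finset.mem_filter.mp hX'.1).2
            have hKY : K ⊆ Y := (Finset.mem_filter.mp hY'.1).2
            ext v
            rw [hg X hKX hX'.2 v, hg Y hKY hY'.2 v, hXY]
      _ = Fintype.card U ^ K.card := by
          rw [Finset.card_univ, Fintype.card_fun, Fintype.card_coe]
  have h3 := Finset.card_le_mul_card_image F _ hfib
  rw [hFcard] at h3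
  refine h3.trans (Nat.mul_le_mul_left _ ?_)
  rw [← Set.ncard_coe_finset]
  apply Set.ncard_le_ncard _ hfin
  intro q hq
  obtain ⟨X, hX, rfl⟩ := Finset.mem_image.mp (Finset.mem_coe.mp hq)
  exact ⟨sub H X, hp X (Finset.mem_filter.mp hX).2, rfl⟩

theorem sub_twinFree {H : SimpleGraph U} {K X : Finset U} (hK : K ⊆ X)
    (h2 : ∀ u v, (∀ k ∈ K, H.Adj u k ↔ H.Adj v k) → u = v) (u v : Fin (sub H X).1)
    (huv : u ≠ v) : (sub H X).2.neighborSet u ≠ (sub H X).2.neighborSet v := by
  intro h
  apply huv
  have h3 : (X.equivFin.symm u).1 = (X.equivFin.symm v).1 := by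
    apply h2
    intro k hk
    have h4 := Set.ext_iff.mp h (X.equivFin ⟨k, hK hk⟩)
    rw [SimpleGraph.mem_neighborSet, SimpleGraph.mem_neighborSet] at h4
    have h5 : ∀ w : Fin (sub H X).1, (sub H X).2.Adj w (X.equivFin ⟨k, hK hk⟩) ↔
        H.Adj (X.equivFin.symm w).1 k := by
      intro w
      show H.Adj (X.equivFin.symm w).1 (X.equivFin.symm (X.equivFin ⟨k, hK hk⟩)).1 ↔ _
      simp
    rw [h5, h5] at h4
    exact h4
  exact X.equivFin.symm.injective (Subtype.ext h3)

theorem sub_connected {H : SimpleGraph U} {K X : Finset U} (hK : K ⊆ X) {c : U} (hc : c ∈ K)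
    (hconn : ∀ v, v = c ∨ H.Adj v c ∨ ∃ k ∈ K, H.Adj v k ∧ H.Adj k c) :
    (sub H X).2.Connected := by
  classical
  have h5 : ∀ (w : Fin (sub H X).1) {k : U} (hk : k ∈ K),
      (sub H X).2.Adj w (X.equivFin ⟨k, hK hk⟩) ↔ H.Adj (X.equivFin.symm w).1 k := by
    intro w k hk
    show H.Adj (X.equivFin.symm w).1 (X.equivFin.symm (X.equivFin ⟨k, hK hk⟩)).1 ↔ _
    simp
  have hreach : ∀ w : Fin (sub H X).1, (sub H X).2.Reachable w (X.equivFin ⟨c, hK hc⟩) := by
    intro w
    rcases hconn (X.equivFin.symm w).1 with h | h | ⟨k, hk, h, h'⟩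
    · have : w = X.equivFin ⟨c, hK hc⟩ := by
        apply X.equivFin.symm.injective
        apply Subtype.ext
        rw [h]
        simp
      rw [this]
    · exact ((h5 w hc).mpr h).reachable
    · have h6 : (sub H X).2.Adj w (X.equivFin ⟨k, hK hk⟩) := (h5 w hk).mpr h
      have h7 : (sub H X).2.Adj (X.equivFin ⟨k, hK hk⟩) (X.equivFin ⟨c, hK hc⟩) := by
        rw [h5 _ hc]
        simpa using h'
      exact h6.reachable.trans h7.reachable
  haveI : Nonempty (Fin (sub H X).1) := ⟨X.equivFin ⟨c, hK hc⟩⟩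
  exact SimpleGraph.Connected.mk fun u v => (hreach u).trans (hreach v).symm

end induced

end Pool.Agent.Helper6.LR
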