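import Pool.Agent.Helper6.LR.Host

set_option linter.unusedSectionVars false

/-!
# A host graph all of whose induced subgraphs containing a small core have rank `r`
-/

namespace Pool.Agent.Helper6.LR

open Finset Module

variable (ρ t : ℕ)

/-- Vertices: points, nonempty sets of points, and `t` extra vertices. -/
abbrev HV : Type := Fin (ρ + 1) ⊕ ({S : Finset (Fin (ρ + 1)) // S.Nonempty} ⊕ Fin t)

/-- The adjacency relation of the host graph. -/
def hAdj : HV ρ t → HV ρ t → Prop
  | Sum.inl i, Sum.inr (Sum.inl S) => i ∈ S.1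
  | Sum.inr (Sum.inl S), Sum.inl i => i ∈ S.1
  | Sum.inl _, Sum.inr (Sum.inr _) => True
  | Sum.inr (Sum.inr _), Sum.inl _ => True
  | Sum.inr (Sum.inl S), Sum.inr (Sum.inr _) => (0 : Fin (ρ + 1)) ∈ S.1
  | Sum.inr (Sum.inr _), Sum.inr (Sum.inl S) => (0 : Fin (ρ + 1)) ∈ S.1
  | Sum.inl _, Sum.inl _ => False
  | Sum.inr (Sum.inl _), Sum.inr (Sum.inl _) => False
  | Sum.inr (Sum.inr _), Sum.inr (Sum.inr _) => False

/-- The host graph. -/
def HG : SimpleGraph (HV ρ t) where
  Adj := hAdj ρ t
  symm := ⟨by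
    rintro (i | S | s) (j | S' | s') h <;> exact h⟩
  loopless := ⟨by
    rintro (i | S | s) h <;> simp [hAdj] at h⟩

/-- The set `{i}`. -/
def sing (i : Fin (ρ + 1)) : {S : Finset (Fin (ρ + 1)) // S.Nonempty} :=
  ⟨{i}, Finset.singleton_nonempty i⟩

/-- The full set. -/
def full : {S : Finset (Fin (ρ + 1)) // S.Nonempty} :=
  ⟨Finset.univ, Finset.univ_nonempty⟩

/-- Indices of the basic part of the core. -/
abbrev HJ : Type := Fin (ρ + 1) ⊕ (Fin (ρ + 1) ⊕ Fin t)

/-- The basic part of the core. -/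
def kk : HJ ρ t → HV ρ t
  | Sum.inl i => Sum.inl i
  | Sum.inr (Sum.inl i) => Sum.inr (Sum.inl (sing ρ i))
  | Sum.inr (Sum.inr s) => Sum.inr (Sum.inr s)

/-- The core. -/
def core : Finset (HV ρ t) :=
  insert (Sum.inr (Sum.inl (full ρ))) (Finset.univ.image (kk ρ t))

theorem kk_mem (j : HJ ρ t) : kk ρ t j ∈ core ρ t :=
  Finset.mem_insert_of_mem (Finset.mem_image_of_mem _ (Finset.mem_univ j))

theorem full_mem : Sum.inr (Sum.inl (full ρ)) ∈ core ρ t := Finset.mem_insert_self _ _

theorem core_card : (core ρ t).card ≤ 2 * (ρ + 1) + t + 1 := by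
  rw [core]
  refine (Finset.card_insert_le _ _).trans ?_
  have : (Finset.univ.image (kk ρ t)).card ≤ Fintype.card (HJ ρ t) := by
    refine Finset.card_image_le.trans ?_
    rw [Finset.card_univ]
  have h2 : Fintype.card (HJ ρ t) = 2 * (ρ + 1) + t := by
    simp only [Fintype.card_sum, Fintype.card_fin]
    ring
  omega

theorem card_HV : Fintype.card (HV ρ t) = (ρ + 1) + (2 ^ (ρ + 1) - 1) + t := by
  have h : Fintype.card {S : Finset (Fin (ρ + 1)) // S.Nonempty} = 2 ^ (ρ + 1) - 1 := by
    have h1 : Fintype.card {S : Finset (Fin (ρ + 1)) // ¬ S = ∅} =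
        Fintype.card (Finset (Fin (ρ + 1))) - Fintype.card {S : Finset (Fin (ρ + 1)) // S = ∅} :=
      Fintype.card_subtype_compl _
    have h2 : Fintype.card {S : Finset (Fin (ρ + 1)) // S.Nonempty} =
        Fintype.card {S : Finset (Fin (ρ + 1)) // ¬ S = ∅} := by
      apply Fintype.card_congr
      exact Equiv.subtypeEquivRight fun S => Finset.nonempty_iff_ne_empty
    rw [h2, h1, Fintype.card_finset, Fintype.card_fin, Fintype.card_subtype_eq]
  simp only [Fintype.card_sum, Fintype.card_fin, h]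
  ring

variable {t}

theorem host_h2 (ht : t ≤ 1) (u v : HV ρ t)
    (h : ∀ k ∈ core ρ t, (HG ρ t).Adj u k ↔ (HG ρ t).Adj v k) : u = v := by
  have hl : ∀ i : Fin (ρ + 1), hAdj ρ t u (Sum.inl i) ↔ hAdj ρ t v (Sum.inl i) := fun i =>
    h _ (kk_mem ρ t (Sum.inl i))
  have hs : ∀ i : Fin (ρ + 1), hAdj ρ t u (Sum.inr (Sum.inl (sing ρ i))) ↔
      hAdj ρ t v (Sum.inr (Sum.inl (sing ρ i))) := fun i =>
    h _ (kk_mem ρ t (Sum.inr (Sum.inl i)))
  rcases u with i | S | s <;> rcases v with j | S' | s'
  · have := hs i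
    simp [hAdj, sing] at this
    rw [this]
  · obtain ⟨x, hx⟩ := S'.2
    have := hl x
    simp [hAdj, hx] at this
  · have := hl 0
    simp [hAdj] at this
  · obtain ⟨x, hx⟩ := S.2
    have := hl x
    simp [hAdj, hx] at this
  · have h3 : S.1 = S'.1 := by
      ext i
      have := hl i
      simpa [hAdj] using this
    rw [Subtype.ext h3]
  · have := hs 0
    simp [hAdj, sing] at this
  · have := hl 0
    simp [hAdj] at this
  · have := hs 0
    simp [hAdj, sing] at this
  · have h3 : s = s' := by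
      apply Fin.ext
      omega
    rw [h3]

theorem host_conn (v : HV ρ t) : v = Sum.inr (Sum.inl (full ρ)) ∨
    (HG ρ t).Adj v (Sum.inr (Sum.inl (full ρ))) ∨
    ∃ k ∈ core ρ t, (HG ρ t).Adj v k ∧ (HG ρ t).Adj k (Sum.inr (Sum.inl (full ρ))) := by
  have hadj : ∀ u v, (HG ρ t).Adj u v = hAdj ρ t u v := fun _ _ => rfl
  rcases v with i | S | s
  · right; left
    rw [hadj]
    simp [hAdj, full]
  · right; right
    obtain ⟨x, hx⟩ := S.2
    refine ⟨Sum.inl x, kk_mem ρ t (Sum.inl x), ?_, ?_⟩
    · rw [hadj]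
      simpa [hAdj] using hx
    · rw [hadj]
      simp [hAdj, full]
  · right; left
    rw [hadj]
    simp [hAdj, full]

open Classical in
/-- The adjacency matrix of the host graph. -/
noncomputable def hM (ρ t : ℕ) : Matrix (HV ρ t) (HV ρ t) ℝ :=
  Matrix.of fun u v => if hAdj ρ t u v then 1 else 0

theorem hM_rank_le (ht : t ≤ 1) : (hM ρ t).rank ≤ 2 * (ρ + 1) + t := by
  classical
  let l : HV ρ t → Fin (ρ + 1) → ℝ := fun u i => match u with
    | Sum.inl j => if j = i then 1 else 0
    | Sum.inr (Sum.inl _) => 0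
    | Sum.inr (Sum.inr _) => if i = 0 then 1 else 0
  let m : HV ρ t → Fin (ρ + 1) → ℝ := fun u i => match u with
    | Sum.inl _ => 0
    | Sum.inr (Sum.inl S) => if i ∈ S.1 then 1 else 0
    | Sum.inr (Sum.inr _) => 1
  let τ : HV ρ t → Fin t → ℝ := fun u s => match u with
    | Sum.inl _ => 0
    | Sum.inr (Sum.inl _) => 0
    | Sum.inr (Sum.inr s') => if s' = s then 1 else 0
  let B : Matrix (HV ρ t) (HJ ρ t) ℝ := Matrix.of fun u j => match j with
    | Sum.inl i => l u i
    | Sum.inr (Sum.inl i) => m u i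
    | Sum.inr (Sum.inr s) => -2 * τ u s
  let C : Matrix (HJ ρ t) (HV ρ t) ℝ := Matrix.of fun j u => match j with
    | Sum.inl i => m u i
    | Sum.inr (Sum.inl i) => l u i
    | Sum.inr (Sum.inr s) => τ u s
  have hBC : hM ρ t = B * C := by
    ext u v
    rw [Matrix.mul_apply, Fintype.sum_sum_type, Fintype.sum_sum_type]
    simp only [B, C, hM, Matrix.of_apply]
    rcases u with i | S | s <;> rcases v with j | S' | s'
    · simp [l, m, τ, hAdj]
    · simp [l, m, τ, hAdj]
    · simp [l, m, τ, hAdj]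
    · simp [l, m, τ, hAdj]
    · simp [l, m, τ, hAdj]
    · simp [l, m, τ, hAdj]
    · simp [l, m, τ, hAdj]
    · simp [l, m, τ, hAdj]
    · have hss : s = s' := by
        apply Fin.ext
        omega
      subst hss
      simp [l, m, τ, hAdj]
      norm_num
  rw [hBC]
  calc (B * C).rank ≤ B.rank := Matrix.rank_mul_le_left B C
    _ ≤ Fintype.card (HJ ρ t) := Matrix.rank_le_card_width B
    _ = 2 * (ρ + 1) + t := by
        simp only [Fintype.card_sum, Fintype.card_fin]
        ring

theorem hM_core_rank (ht : t ≤ 1) :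
    ((hM ρ t).submatrix (kk ρ t) (kk ρ t)).rank = 2 * (ρ + 1) + t := by
  classical
  have hdet : ((hM ρ t).submatrix (kk ρ t) (kk ρ t)).det ≠ 0 := by
    intro h0
    obtain ⟨v, hv0, hv⟩ := Matrix.exists_mulVec_eq_zero_iff.mpr h0
    apply hv0
    have e1 : ∀ i : Fin (ρ + 1), v (Sum.inr (Sum.inl i)) + ∑ s : Fin t, v (Sum.inr (Sum.inr s)) = 0 := by
      intro i
      have := congrFun hv (Sum.inl i)
      simp only [Matrix.mulVec, dotProduct, Fintype.sum_sum_type, Matrix.submatrix_apply, hM,
        Matrix.of_apply, kk, hAdj, sing, Pi.zero_apply] at this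
      simpa using this
    have e2 : ∀ i : Fin (ρ + 1), v (Sum.inl i) +
        (if i = 0 then ∑ s : Fin t, v (Sum.inr (Sum.inr s)) else 0) = 0 := by
      intro i
      have := congrFun hv (Sum.inr (Sum.inl i))
      simp only [Matrix.mulVec, dotProduct, Fintype.sum_sum_type, Matrix.submatrix_apply, hM,
        Matrix.of_apply, kk, hAdj, sing, Pi.zero_apply] at this
      by_cases hi : i = 0
      · subst hi
        simpa using this
      · have hi' : ¬ (0 : Fin (ρ + 1)) = i := fun h => hi h.symm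
        simpa [hi, hi'] using this
    have e3 : ∀ _s : Fin t, (∑ i : Fin (ρ + 1), v (Sum.inl i)) + v (Sum.inr (Sum.inl 0)) = 0 := by
      intro s
      have := congrFun hv (Sum.inr (Sum.inr s))
      simp only [Matrix.mulVec, dotProduct, Fintype.sum_sum_type, Matrix.submatrix_apply, hM,
        Matrix.of_apply, kk, hAdj, sing, Pi.zero_apply] at this
      simpa using this
    set σ := ∑ s : Fin t, v (Sum.inr (Sum.inr s)) with hσ
    have hσ0 : σ = 0 := by
      rcases Nat.eq_zero_or_pos t with h | h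
      · subst h
        rw [hσ]
        simp
      · have e4 := e3 ⟨0, h⟩
        have e5 : ∑ i : Fin (ρ + 1), v (Sum.inl i) = -σ := by
          have : ∀ i : Fin (ρ + 1), v (Sum.inl i) = -(if i = 0 then σ else 0) := by
            intro i
            linarith [e2 i]
          rw [Finset.sum_congr rfl fun i _ => this i]
          simp
        have e6 := e1 0
        linarith
    funext j
    rcases j with i | i | s
    · have := e2 i
      rw [hσ0] at this
      simpa using this
    · have := e1 i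
      rw [hσ0] at this
      simpa using this
    · have h1 : σ = v (Sum.inr (Sum.inr s)) := by
        rw [hσ]
        apply Finset.sum_eq_single s
        · intro s' _ hne
          exfalso
          apply hne
          apply Fin.ext
          omega
        · intro h
          exact absurd (Finset.mem_univ s) h
      rw [← h1, hσ0]
      simp
  have hu : IsUnit ((hM ρ t).submatrix (kk ρ t) (kk ρ t)) := by
    rw [Matrix.isUnit_iff_isUnit_det]
    exact isUnit_iff_ne_zero.mpr hdet
  rw [Matrix.rank_of_isUnit _ hu]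
  simp only [Fintype.card_sum, Fintype.card_fin]
  ring

theorem host_rank (ht : t ≤ 1) {X : Finset (HV ρ t)} (hX : core ρ t ⊆ X) :
    grank (sub (HG ρ t) X) = 2 * (ρ + 1) + t := by
  classical
  have h1 : grank (sub (HG ρ t) X) = ((hM ρ t).submatrix
      (fun i : Fin X.card => (X.equivFin.symm i).1) (fun i => (X.equivFin.symm i).1)).rank := by
    rw [grank]
    congr 1
  rw [h1]
  apply le_antisymm
  · exact (Matrix.rank_submatrix_le _ _ _).trans (hM_rank_le ρ ht)
  · rw [← hM_core_rank ρ ht]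
    have h2 : (hM ρ t).submatrix (kk ρ t) (kk ρ t) = ((hM ρ t).submatrix
      (fun i : Fin X.card => (X.equivFin.symm i).1) (fun i => (X.equivFin.symm i).1)).submatrix
        (fun j => X.equivFin ⟨kk ρ t j, hX (kk_mem ρ t j)⟩)
        (fun j => X.equivFin ⟨kk ρ t j, hX (kk_mem ρ t j)⟩) := by
      ext i j
      simp
    rw [h2]
    exact Matrix.rank_submatrix_le _ _ _

theorem host_inG (ht : t ≤ 1) {X : Finset (HV ρ t)} (hX : core ρ t ⊆ X) :
    InG (2 * (ρ + 1) + t) (sub (HG ρ t) X) :=
  ⟨sub_connected hX (full_mem ρ t) (host_conn ρ), fun u v huv _ =>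
    sub_twinFree hX (host_h2 ρ ht) u v huv, host_rank ρ ht hX⟩

end Pool.Agent.Helper6.LR
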