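import Pool.Agent.Helper6.LR.Split

set_option linter.unusedSectionVars false

/-!
# A Kupavskii–Weltge type inequality

If the rows of `N[A, B]` are pairwise non-proportional and so are the columns, then
`|A| |B| ≤ R 2 ^ R` where `R` is the rank.
-/

namespace Pool.Agent.Helper6.LR

open Finset Module

variable {V : Type*} [Fintype V] [DecidableEq V]

theorem rk_pos {N : V → V → ℝ} (hN : PM N) {A B : Finset V} (hA : A.Nonempty)
    (hB : B.Nonempty) : 0 < rk N A B := by
  obtain ⟨a, ha⟩ := hA
  obtain ⟨b, hb⟩ := hB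
  rw [rk]
  apply Module.finrank_pos_iff.mpr
  refine ⟨⟨P A (col N b), mem_CS N A hb⟩, 0, ?_⟩
  intro h
  have h1 := congrArg Subtype.val h
  have h2 := congrFun h1 a
  simp only [P_mem ha, col, Submodule.coe_zero, Pi.zero_apply] at h2
  rcases hN a b with h3 | h3 <;> rw [h3] at h2 <;> norm_num at h2

/-- The two agreement sets partition the rows. -/
theorem agr_card {N : V → V → ℝ} (hN : PM N) (A : Finset V) (b1 b2 : V) :
    (A.filter (fun a => N a b1 = 1 * N a b2)).card +
      (A.filter (fun a => N a b1 = (-1) * N a b2)).card = A.card := by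
  classical
  rw [← Finset.card_filter_add_card_filter_not (s := A) (fun a => N a b1 = 1 * N a b2)]
  congr 2
  ext a
  simp only [Finset.mem_filter, and_congr_right_iff]
  intro _
  constructor
  · intro h h'
    rw [h] at h'
    rcases hN a b2 with h3 | h3 <;> rw [h3] at h' <;> norm_num at h'
  · intro h
    exact pm_ne (by norm_num) (hN a b1) (hN a b2) h

theorem exists_half {N : V → V → ℝ} (hN : PM N) (A : Finset V) (b1 b2 : V) :
    ∃ s : ℝ, s * s = 1 ∧ A.card ≤ 2 * (A.filter (fun a => N a b1 = s * N a b2)).card := by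
  have h := agr_card hN A b1 b2
  by_cases h1 : A.card ≤ 2 * (A.filter (fun a => N a b1 = 1 * N a b2)).card
  · exact ⟨1, by norm_num, h1⟩
  · exact ⟨-1, by norm_num, by omega⟩

theorem kw : ∀ (R : ℕ) (N : V → V → ℝ), PM N → ∀ A B : Finset V, rk N A B ≤ R → Red N A B →
    Red (tr N) B A → A.card * B.card ≤ R * 2 ^ R := by
  classical
  intro R
  induction R using Nat.strong_induction_on with
  | _ R ih =>
  intro N hN A B hR hcol hrow
  rcases A.eq_empty_or_nonempty with rfl | hA
  · simp
  rcases B.eq_empty_or_nonempty with rfl | hB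
  · simp
  have hpos := rk_pos hN hA hB
  have hR1 : 1 ≤ R := by omega
  by_cases hB1 : B.card ≤ 1
  · -- one column
    have hA1 : A.card ≤ 1 := by
      rw [Finset.card_le_one]
      intro a ha a' ha'
      obtain ⟨b, hb⟩ := hB
      have hBb : ∀ x ∈ B, x = b := fun x hx => Finset.card_le_one.mp hB1 x hx b hb
      apply hrow a ha a' ha'
      have hcases : ∃ s : ℝ, s * s = 1 ∧ N a b = s * N a' b := by
        rcases hN a b with h | h <;> rcases hN a' b with h' | h' <;> rw [h, h']
        · exact ⟨1, by norm_num, by norm_num⟩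
        · exact ⟨-1, by norm_num, by norm_num⟩
        · exact ⟨-1, by norm_num, by norm_num⟩
        · exact ⟨1, by norm_num, by norm_num⟩
      obtain ⟨s, hs, h⟩ := hcases
      refine ⟨s, hs, ?_⟩
      intro x hx
      rw [hBb x hx]
      exact h
    calc A.card * B.card ≤ 1 * 1 := Nat.mul_le_mul hA1 hB1
      _ = 1 * 1 := rfl
      _ ≤ R * 2 ^ R := Nat.mul_le_mul hR1 Nat.one_le_two_pow
  · push Not at hB1
    obtain ⟨b1, hb1, b2, hb2, hne⟩ := Finset.one_lt_card.mp hB1
    have hnp : ¬ Par N A b1 b2 := fun h => hne (hcol b1 hb1 b2 hb2 h)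
    obtain ⟨s, hs, hhalf⟩ := exists_half hN A b1 b2
    obtain ⟨A0, hA0, hsub, hrk, hmerge, hone⟩ := split hN hb1 hb2 hnp hs
    have hA0card : A.card ≤ 2 * A0.card := by
      refine hhalf.trans (Nat.mul_le_mul_left _ (Finset.card_le_card ?_))
      intro a ha
      rw [Finset.mem_filter] at ha
      exact hsub a ha.1 ha.2
    obtain ⟨B', hB', hred, hrep⟩ := exists_reps (Par N A0) (Par.refl N A0)
      (fun _ _ h => h.symm) B
    have hrow' : Red (tr N) B' A0 := red_rows hA0 hrow hrep
    have hFp : ∀ b ∈ B \ B', ∃ b' ∈ B, Par N A0 b b' ∧ ¬ Par N A b b' := by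
      intro b hb
      rw [Finset.mem_sdiff] at hb
      obtain ⟨b', hb', hp⟩ := hrep b hb.1
      refine ⟨b', hB' hb', hp, ?_⟩
      intro h
      have := hcol b hb.1 b' (hB' hb') h
      rw [this] at hb
      exact hb.2 hb'
    have hx : (B \ B').card ≤ B'.card := by
      have hch : ∀ b : V, ∃ b' : V, b ∈ B \ B' → b' ∈ B' ∧ Par N A0 b b' := by
        intro b
        by_cases hb : b ∈ B \ B'
        · obtain ⟨b', hb', hp⟩ := hrep b (Finset.mem_sdiff.mp hb).1
          exact ⟨b', fun _ => ⟨hb', hp⟩⟩
        · exact ⟨b, fun h => absurd h hb⟩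
      choose g hg using hch
      apply Finset.card_le_card_of_injOn g
      · intro b hb
        exact (hg b hb).1
      · intro b hb c hc hbc
        have hb' : b ∈ B \ B' := hb
        have hc' : c ∈ B \ B' := hc
        have hgb := hg b hb'
        have hgc := hg c hc'
        rw [← hbc] at hgc
        have hbB := (Finset.mem_sdiff.mp hb').1
        have hcB := (Finset.mem_sdiff.mp hc').1
        have h1 : ¬ Par N A (g b) b := by
          intro h
          have := hcol _ (hB' hgb.1) b hbB h
          apply (Finset.mem_sdiff.mp hb').2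
          rw [← this]
          exact hgb.1
        have h2 : ¬ Par N A (g b) c := by
          intro h
          have := hcol _ (hB' hgb.1) c hcB h
          apply (Finset.mem_sdiff.mp hc').2
          rw [← this]
          exact hgb.1
        have h3 := hmerge (g b) (hB' hgb.1) b hbB c hcB hgb.2.symm hgc.2.symm h1 h2
        exact hcol b hbB c hcB h3
    have hBcard : B.card = B'.card + (B \ B').card := by
      have := Finset.card_sdiff_add_card_eq_card hB'
      omega
    have hAcard : A.card = A0.card + (A \ A0).card := by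
      have := Finset.card_sdiff_add_card_eq_card hA0
      omega
    have hih := ih (rk N A0 B) (by omega) N hN A0 B' (rk_mono_right N A0 hB') hred hrow'
    set R' := rk N A0 B with hR'
    by_cases hk : R' + 2 ≤ R
    · calc A.card * B.card ≤ (2 * A0.card) * (2 * B'.card) :=
            Nat.mul_le_mul hA0card (by omega)
        _ = 4 * (A0.card * B'.card) := by ring
        _ ≤ 4 * (R' * 2 ^ R') := Nat.mul_le_mul_left _ hih
        _ = R' * 2 ^ (R' + 2) := by ring
        _ ≤ R * 2 ^ R := Nat.mul_le_mul (by omega) (Nat.pow_le_pow_right (by norm_num) hk)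
    · have hR2 : R = R' + 1 := by omega
      have hRk : rk N A B = R' + 1 := by omega
      have h1 := hone hRk (B \ B') Finset.sdiff_subset hFp
      have h2 := frobenius N (Finset.sdiff_subset (s := A) (t := A0))
        (Finset.sdiff_subset (s := B) (t := B'))
      have h3 : 2 * (A \ A0).card ≤ 2 ^ rk N (A \ A0) B := by
        rw [← rk_tr]
        apply card_red hN.tr hB
        intro a ha a' ha' hp
        exact hrow a (Finset.sdiff_subset ha) a' (Finset.sdiff_subset ha') hp
      have h4 : 2 * (B \ B').card ≤ 2 ^ rk N A (B \ B') := by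
        apply card_red hN hA
        intro b hb b' hb' hp
        exact hcol b (Finset.sdiff_subset hb) b' (Finset.sdiff_subset hb') hp
      have h5 : (2 * (A \ A0).card) * (2 * (B \ B').card) ≤ 2 ^ (R + 1) := by
        calc (2 * (A \ A0).card) * (2 * (B \ B').card) ≤
              2 ^ rk N (A \ A0) B * 2 ^ rk N A (B \ B') := Nat.mul_le_mul h3 h4
          _ = 2 ^ (rk N (A \ A0) B + rk N A (B \ B')) := by rw [pow_add]
          _ ≤ 2 ^ (R + 1) := Nat.pow_le_pow_right (by norm_num) (by omega)
      have h6 : 2 * ((A \ A0).card * (B \ B').card) ≤ 2 ^ R := by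
        have : 2 ^ (R + 1) = 2 * 2 ^ R := by ring
        nlinarith
      have h7 : A.card * B.card ≤ 2 * (A0.card * B'.card) + 2 * ((A \ A0).card * (B \ B').card) := by
        rw [hAcard, hBcard]
        have h8 : (A \ A0).card ≤ A0.card := by omega
        obtain ⟨u, hu⟩ := Nat.exists_eq_add_of_le h8
        obtain ⟨v, hv⟩ := Nat.exists_eq_add_of_le hx
        rw [hu, hv]
        nlinarith [Nat.zero_le (u * v)]
      calc A.card * B.card ≤ 2 * (R' * 2 ^ R') + 2 ^ R := by omega
        _ = R * 2 ^ R := by rw [hR2]; ring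

/-- The weighted form. -/
theorem kw_weighted {N : V → V → ℝ} (hN : PM N) {A B : Finset V} {w1 w2 : ℕ}
    (h1 : ColW (tr N) B A w1) (h2 : ColW N A B w2) :
    A.card * B.card ≤ w1 * w2 * (rk N A B * 2 ^ rk N A B) := by
  obtain ⟨A', hA', hredA, hrepA⟩ := exists_reps (Par (tr N) B) (Par.refl _ _)
    (fun _ _ h => h.symm) A
  obtain ⟨B', hB', hredB, hrepB⟩ := exists_reps (Par N A) (Par.refl _ _)
    (fun _ _ h => h.symm) B
  have hA1 := card_le_of_reps h1 hA' hrepA
  have hB1 := card_le_of_reps h2 hB' hrepB
  have hred1 : Red (tr N) B' A' := by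
    refine red_rows (A := A') (B := B) (Finset.Subset.refl _) hredA ?_
    intro b hb
    obtain ⟨b', hb', hp⟩ := hrepB b hb
    exact ⟨b', hb', hp.mono hA'⟩
  have hred2 : Red N A' B' := by
    refine red_rows (N := tr N) (A := B') (B := A) (Finset.Subset.refl _) hredB ?_
    intro a ha
    obtain ⟨a', ha', hp⟩ := hrepA a ha
    exact ⟨a', ha', hp.mono hB'⟩
  have hrk : rk N A' B' ≤ rk N A B := (rk_mono_left N B' hA').trans (rk_mono_right N A hB')
  have h3 := kw (rk N A B) N hN A' B' hrk hred2 hred1
  calc A.card * B.card ≤ (w1 * A'.card) * (w2 * B'.card) := Nat.mul_le_mul hA1 hB1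
    _ = w1 * w2 * (A'.card * B'.card) := by ring
    _ ≤ _ := Nat.mul_le_mul_left _ h3

end Pool.Agent.Helper6.LR
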