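import Pool.Agent.Helper6.LR.Bias

set_option linter.unusedSectionVars false

/-!
# A large submatrix of rank one

If `Λ = |A| |B| / (w1 w2 2 ^ R)` is not small then `N[A, B]` has a submatrix of rank one of
relative size polynomial in `Λ / R`.
-/

namespace Pool.Agent.Helper6.LR

open Finset Module

variable {V : Type*} [Fintype V] [DecidableEq V]

/-- There is a submatrix of rank at most one of size at least `x`. -/
def Good (N : V → V → ℝ) (A B : Finset V) (x : ℝ) : Prop :=
  ∃ A' ⊆ A, ∃ B' ⊆ B, rk N A' B' ≤ 1 ∧ x ≤ (A'.card : ℝ) * B'.card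

theorem Good.mono {N : V → V → ℝ} {A A2 B B2 : Finset V} {x y : ℝ} (h : Good N A B x)
    (hA : A ⊆ A2) (hB : B ⊆ B2) (hxy : y ≤ x) : Good N A2 B2 y := by
  obtain ⟨A', hA', B', hB', h1, h2⟩ := h
  exact ⟨A', hA'.trans hA, B', hB'.trans hB, h1, hxy.trans h2⟩

theorem Good.of_tr {N : V → V → ℝ} {A B : Finset V} {x : ℝ} (h : Good (tr N) B A x) :
    Good N A B x := by
  obtain ⟨B', hB', A', hA', h1, h2⟩ := h
  refine ⟨A', hA', B', hB', ?_, ?_⟩
  · rwa [rk_tr] at h1
  · rwa [mul_comm]

/-- The claim for rank `R`. -/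
def Claim (V : Type*) [Fintype V] [DecidableEq V] (σ a0 : ℝ) (R : ℕ) : Prop :=
  ∀ (N : V → V → ℝ), PM N → ∀ (A B : Finset V) (w1 w2 : ℕ) (L : ℝ), A.Nonempty → B.Nonempty →
    rk N A B = R → ColW (tr N) B A w1 → ColW N A B w2 → 0 < L →
    L * (w1 * w2 * 2 ^ R) ≤ (A.card : ℝ) * B.card →
    Good N A B (a0 * L ^ 60 * σ ^ (61 * R) * ((A.card : ℝ) * B.card))

theorem step_ineq {t u : ℕ} {a0 L c d σ S S' : ℝ} {R R' : ℕ} (ha0 : 0 ≤ a0) (hL : 0 ≤ L)
    (hc : 0 ≤ c) (hσ : 0 ≤ σ) (hσ1 : σ ≤ 1) (hS : 0 ≤ S) (hS' : d * S ≤ S')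
    (hcd : σ ^ u ≤ c ^ t * d) (hR : R' + 1 ≤ R) :
    a0 * L ^ t * σ ^ (u * R) * S ≤ a0 * (c * L) ^ t * σ ^ (u * R') * S' := by
  have h1 : σ ^ (u * R) ≤ σ ^ (u * (R' + 1)) := by
    apply pow_le_pow_of_le_one hσ hσ1
    exact Nat.mul_le_mul_left _ hR
  have h2 : σ ^ (u * (R' + 1)) = σ ^ (u * R') * σ ^ u := by
    rw [← pow_add]
    congr 1
  calc a0 * L ^ t * σ ^ (u * R) * S ≤ a0 * L ^ t * (σ ^ (u * R') * (c ^ t * d)) * S := by
        apply mul_le_mul_of_nonneg_right _ hS
        apply mul_le_mul_of_nonneg_left _ (by positivity)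
        rw [h2] at h1
        refine h1.trans ?_
        exact mul_le_mul_of_nonneg_left hcd (by positivity)
    _ = a0 * (c * L) ^ t * σ ^ (u * R') * (d * S) := by rw [mul_pow]; ring
    _ ≤ _ := mul_le_mul_of_nonneg_left hS' (by positivity)

theorem ip_eq_agr {N : V → V → ℝ} (hN : PM N) (A : Finset V) (b1 b2 : V) :
    ip N A b1 b2 = (A.filter (fun a => N a b1 = 1 * N a b2)).card -
      ((A.filter (fun a => N a b1 = (-1) * N a b2)).card : ℝ) := by
  classical
  rw [ip, Finset.card_filter, Finset.card_filter]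
  push_cast
  rw [← Finset.sum_sub_distrib]
  apply Finset.sum_congr rfl
  intro a _
  rcases hN a b1 with h | h <;> rcases hN a b2 with h' | h' <;> rw [h, h'] <;> norm_num

theorem exists_biased {N : V → V → ℝ} (hN : PM N) (A : Finset V) {b1 b2 : V}
    (h : (A.card : ℝ) < 64 * |ip N A b1 b2|) :
    ∃ s : ℝ, s * s = 1 ∧
      65 * (A.card : ℝ) ≤ 128 * ((A.filter (fun a => N a b1 = s * N a b2)).card : ℝ) := by
  have h1 := ip_eq_agr hN A b1 b2
  have h2 : ((A.filter (fun a => N a b1 = 1 * N a b2)).card : ℝ) +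
      (A.filter (fun a => N a b1 = (-1) * N a b2)).card = A.card := by
    exact_mod_cast agr_card hN A b1 b2
  rcases le_total 0 (ip N A b1 b2) with h3 | h3
  · rw [abs_of_nonneg h3] at h
    exact ⟨1, by norm_num, by linarith⟩
  · rw [abs_of_nonpos h3] at h
    exact ⟨-1, by norm_num, by linarith⟩

theorem ColW.two {N : V → V → ℝ} {A A0 B : Finset V} {w : ℕ} (h : ColW N A B w)
    (hm : ∀ b ∈ B, ∀ b' ∈ B, ∀ b'' ∈ B, Par N A0 b b' → Par N A0 b b'' → ¬ Par N A b b' →
        ¬ Par N A b b'' → Par N A b' b'') : ColW N A0 B (2 * w) := by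
  classical
  intro b hb S hS hp
  have h1 : (S.filter (fun x => Par N A b x)).card ≤ w :=
    h b hb _ ((Finset.filter_subset _ _).trans hS) fun x hx => (Finset.mem_filter.mp hx).2
  have h2 : (S.filter (fun x => ¬ Par N A b x)).card ≤ w := by
    rcases (S.filter (fun x => ¬ Par N A b x)).eq_empty_or_nonempty with h3 | ⟨c, hc⟩
    · rw [h3]
      simp
    · rw [Finset.mem_filter] at hc
      apply h c (hS hc.1) _ ((Finset.filter_subset _ _).trans hS)
      intro x hx
      rw [Finset.mem_filter] at hx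
      exact hm b hb c (hS hc.1) x (hS hx.1) (hp c hc.1) (hp x hx.1) hc.2 hx.2
  have h3 := Finset.card_filter_add_card_filter_not (s := S) (fun x => Par N A b x)
  omega

theorem ColW.pos {N : V → V → ℝ} {A B : Finset V} {w : ℕ} (h : ColW N A B w)
    (hB : B.Nonempty) : 1 ≤ w := by
  obtain ⟨b, hb⟩ := hB
  have := h b hb {b} (by simpa using hb) (by
    intro x hx
    rw [Finset.mem_singleton] at hx
    rw [hx]
    exact Par.refl _ _ _)
  simpa using this

/-- The inductive step, biased columns. -/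
theorem step_cols {R0 R : ℕ} (hR0 : R ≤ R0) {σ a0 : ℝ} (hσ : σ = 1 - 1 / (122 * R0))
    (ha0 : a0 = 1 / (2 ^ 30 * R0 ^ 61)) (ih : ∀ R' < R, Claim V σ a0 R')
    {N : V → V → ℝ} (hN : PM N) {A B : Finset V} {w1 w2 : ℕ} {L : ℝ} (hA : A.Nonempty)
    (hB : B.Nonempty) (hrk : rk N A B = R) (h1 : ColW (tr N) B A w1) (h2 : ColW N A B w2)
    (hL : 0 < L) (hLW : L * (w1 * w2 * 2 ^ R) ≤ (A.card : ℝ) * B.card)
    {b1 b2 : V} (hb1 : b1 ∈ B) (hb2 : b2 ∈ B) (hnp : ¬ Par N A b1 b2)
    (hbias : (A.card : ℝ) < 64 * |ip N A b1 b2|) :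
    Good N A B (a0 * L ^ 60 * σ ^ (61 * R) * ((A.card : ℝ) * B.card)) := by
  classical
  have hRpos : 0 < R := by rw [← hrk]; exact rk_pos hN hA hB
  have hR0R : (1 : ℝ) ≤ R0 := by exact_mod_cast (by omega : 1 ≤ R0)
  set τ : ℝ := 1 / (122 * R0) with hτ
  have hτpos : 0 < τ := by positivity
  have hτ1 : τ ≤ 1 := by
    rw [hτ, div_le_one (by positivity)]
    linarith
  have hσ0 : 0 ≤ σ := by rw [hσ]; linarith
  have hσ1 : σ ≤ 1 := by rw [hσ]; linarith
  have ha0pos : 0 < a0 := by rw [ha0]; positivity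
  have hApos : (0 : ℝ) < A.card := by exact_mod_cast hA.card_pos
  have hBpos : (0 : ℝ) < B.card := by exact_mod_cast hB.card_pos
  have hw1 : 1 ≤ w1 := h1.pos hA
  have hw2 : 1 ≤ w2 := h2.pos hB
  have hw1R : (1 : ℝ) ≤ w1 := by exact_mod_cast hw1
  have hw2R : (1 : ℝ) ≤ w2 := by exact_mod_cast hw2
  obtain ⟨s, hs, hag⟩ := exists_biased hN A hbias
  obtain ⟨A0, hA0, hsub, hrk0, hmerge, hone⟩ := split hN hb1 hb2 hnp hs
  have hA0card : 65 * (A.card : ℝ) ≤ 128 * A0.card := by
    refine hag.trans ?_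
    have : (A.filter (fun a => N a b1 = s * N a b2)).card ≤ A0.card := by
      apply Finset.card_le_card
      intro a ha
      rw [Finset.mem_filter] at ha
      exact hsub a ha.1 ha.2
    have h' : ((A.filter (fun a => N a b1 = s * N a b2)).card : ℝ) ≤ A0.card := by
      exact_mod_cast this
    linarith
  have hA0pos : (0 : ℝ) < A0.card := by linarith
  have hA0ne : A0.Nonempty := by
    rw [← Finset.card_pos]
    exact_mod_cast hA0pos
  set R' := rk N A0 B with hR'
  have hR'R : R' + 1 ≤ R := by omega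
  have hAB : (0 : ℝ) < (A.card : ℝ) * B.card := by positivity
  have hcardA : (A.card : ℝ) = A0.card + (A \ A0).card := by
    have := Finset.card_sdiff_add_card_eq_card hA0
    have h' : ((A \ A0).card : ℝ) + A0.card = A.card := by exact_mod_cast this
    linarith
  by_cases hI : ((A \ A0).card : ℝ) ≤ τ * A.card
  · -- case I
    have hA0big : σ * (A.card : ℝ) ≤ A0.card := by
      rw [hσ]
      linarith
    have hcl := ih R' (by omega) N hN A0 B w1 (w2 * 2 ^ (R - R')) (σ * L) hA0ne hB rfl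
      (h1.mono_right hA0) (by
        have := h2.merge hN hA0
        rwa [hrk] at this) (by
        apply mul_pos _ hL
        rw [hσ]
        have : τ ≤ 1 / 122 := by
          rw [hτ]
          apply one_div_le_one_div_of_le (by norm_num)
          linarith
        linarith) (by
        have hpow : (2 : ℝ) ^ (R - R') * 2 ^ R' = 2 ^ R := by
          rw [← pow_add]
          congr 1
          omega
        push_cast
        calc σ * L * (w1 * (w2 * 2 ^ (R - R')) * 2 ^ R') =
              σ * (L * (w1 * w2 * (2 ^ (R - R') * 2 ^ R'))) := by ring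
          _ = σ * (L * (w1 * w2 * 2 ^ R)) := by rw [hpow]
          _ ≤ σ * ((A.card : ℝ) * B.card) := mul_le_mul_of_nonneg_left hLW hσ0
          _ = (σ * A.card) * B.card := by ring
          _ ≤ A0.card * B.card := mul_le_mul_of_nonneg_right hA0big hBpos.le)
    refine hcl.mono hA0 (Finset.Subset.refl _) ?_
    apply step_ineq (d := σ) ha0pos.le hL.le hσ0 hσ0 hσ1 hAB.le _ _ hR'R
    · calc σ * ((A.card : ℝ) * B.card) = (σ * A.card) * B.card := by ring
        _ ≤ _ := mul_le_mul_of_nonneg_right hA0big hBpos.le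
    · rw [← pow_succ]
  · push Not at hI
    by_cases hk : R' + 2 ≤ R
    · -- case II a
      have hcl := ih R' (by omega) N hN A0 B w1 (2 * w2) (65 / 64 * L) hA0ne hB rfl
        (h1.mono_right hA0) (h2.two hmerge) (by positivity) (by
          have hpow : (2 : ℝ) ^ (R' + 2) ≤ 2 ^ R := pow_le_pow_right₀ (by norm_num) hk
          have hpow' : (2 : ℝ) ^ (R' + 2) = 4 * 2 ^ R' := by ring
          push_cast
          calc 65 / 64 * L * (w1 * (2 * w2) * 2 ^ R') =
                65 / 128 * (L * (w1 * w2 * (4 * 2 ^ R'))) := by ring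
            _ ≤ 65 / 128 * (L * (w1 * w2 * 2 ^ R)) := by
                rw [hpow'] at hpow
                gcongr
            _ ≤ 65 / 128 * ((A.card : ℝ) * B.card) := by linarith
            _ = (65 / 128 * A.card) * B.card := by ring
            _ ≤ A0.card * B.card := by
                apply mul_le_mul_of_nonneg_right _ hBpos.le
                linarith)
      refine hcl.mono hA0 (Finset.Subset.refl _) ?_
      apply step_ineq (d := 65 / 128) ha0pos.le hL.le (by norm_num) hσ0 hσ1 hAB.le _ _ hR'R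
      · calc 65 / 128 * ((A.card : ℝ) * B.card) = (65 / 128 * A.card) * B.card := by ring
          _ ≤ _ := by
            apply mul_le_mul_of_nonneg_right _ hBpos.le
            linarith
      · calc σ ^ 61 ≤ 1 := pow_le_one₀ hσ0 hσ1
          _ ≤ _ := by norm_num
    · have hk1 : R = R' + 1 := by omega
      set F := B.filter (fun b => ∃ b' ∈ B, Par N A0 b b' ∧ ¬ Par N A b b') with hF
      have hFB : F ⊆ B := Finset.filter_subset _ _
      by_cases hFc : 256 * (F.card : ℝ) < B.card
      · -- case II b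
        have hcardB : (B.card : ℝ) = (B \ F).card + F.card := by
          have := Finset.card_sdiff_add_card_eq_card hFB
          exact_mod_cast this.symm
        have hB2 : 255 / 256 * (B.card : ℝ) ≤ (B \ F).card := by linarith
        have hB2ne : (B \ F).Nonempty := by
          rw [← Finset.card_pos]
          have : (0 : ℝ) < (B \ F).card := by
            have : 0 < 255 / 256 * (B.card : ℝ) := by positivity
            linarith
          exact_mod_cast this
        have hR2 : rk N A0 (B \ F) ≤ R' := rk_mono_right N A0 Finset.sdiff_subset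
        have hcw1 : ColW (tr N) (B \ F) A0 (w1 * 2 ^ (R' - rk N A0 (B \ F))) := by
          have := (h1.mono_right hA0).merge hN.tr (Finset.sdiff_subset (s := B) (t := F))
          rwa [rk_tr, rk_tr] at this
        have hcw2 : ColW N A0 (B \ F) w2 := by
          intro b hb S hS hp
          rw [Finset.mem_sdiff] at hb
          apply h2 b hb.1 S (hS.trans Finset.sdiff_subset)
          intro x hx
          by_contra hnp'
          apply hb.2
          rw [hF, Finset.mem_filter]
          exact ⟨hb.1, x, Finset.sdiff_subset (hS hx), hp x hx, hnp'⟩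
        have hcl := ih (rk N A0 (B \ F)) (by omega) N hN A0 (B \ F)
          (w1 * 2 ^ (R' - rk N A0 (B \ F))) w2 (65 / 64 * (255 / 256) * L) hA0ne hB2ne rfl
          hcw1 hcw2 (by positivity) (by
            have hpow : (2 : ℝ) ^ (R' - rk N A0 (B \ F)) * 2 ^ rk N A0 (B \ F) = 2 ^ R' := by
              rw [← pow_add]
              congr 1
              omega
            have hpow2 : (2 : ℝ) ^ R = 2 * 2 ^ R' := by rw [hk1]; ring
            push_cast
            calc 65 / 64 * (255 / 256) * L *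
                  (w1 * 2 ^ (R' - rk N A0 (B \ F)) * w2 * 2 ^ rk N A0 (B \ F)) =
                  65 / 64 * (255 / 256) * (L * (w1 * w2 *
                    (2 ^ (R' - rk N A0 (B \ F)) * 2 ^ rk N A0 (B \ F)))) := by ring
              _ = 65 / 128 * (255 / 256) * (L * (w1 * w2 * 2 ^ R)) := by
                  rw [hpow, hpow2]; ring
              _ ≤ 65 / 128 * (255 / 256) * ((A.card : ℝ) * B.card) := by
                  apply mul_le_mul_of_nonneg_left hLW (by norm_num)
              _ = (65 / 128 * A.card) * (255 / 256 * B.card) := by ring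
              _ ≤ A0.card * (B \ F).card := by
                  apply mul_le_mul _ hB2 (by positivity) hA0pos.le
                  linarith)
        refine hcl.mono hA0 Finset.sdiff_subset ?_
        apply step_ineq (d := 65 / 128 * (255 / 256)) ha0pos.le hL.le (by norm_num) hσ0 hσ1
          hAB.le _ _ (by omega)
        · calc 65 / 128 * (255 / 256) * ((A.card : ℝ) * B.card) =
                (65 / 128 * A.card) * (255 / 256 * B.card) := by ring
            _ ≤ _ := by
              apply mul_le_mul _ hB2 (by positivity) hA0pos.le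
              linarith
        · calc σ ^ 61 ≤ 1 := pow_le_one₀ hσ0 hσ1
            _ ≤ _ := by norm_num
      · -- case III
        push Not at hFc
        have h3 : rk N (A \ A0) F ≤ 1 := by
          apply hone (by omega) F hFB
          intro b hb
          rw [hF, Finset.mem_filter] at hb
          exact hb.2
        refine ⟨A \ A0, Finset.sdiff_subset, F, hFB, h3, ?_⟩
        -- size
        have hLR : L ≤ R0 := by
          have h4 := kw_weighted hN h1 h2
          rw [hrk] at h4
          have h5 : (A.card : ℝ) * B.card ≤ w1 * w2 * (R * 2 ^ R) := by exact_mod_cast h4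
          have h6 : L * (w1 * w2 * 2 ^ R) ≤ R * (w1 * w2 * 2 ^ R) := by
            calc L * (w1 * w2 * 2 ^ R) ≤ _ := hLW
              _ ≤ _ := h5
              _ = _ := by ring
          have h7 : L ≤ R := le_of_mul_le_mul_right h6 (by positivity)
          have h8 : (R : ℝ) ≤ R0 := by exact_mod_cast hR0
          linarith
        have h9 : a0 * L ^ 60 * σ ^ (61 * R) ≤ τ / 256 := by
          calc a0 * L ^ 60 * σ ^ (61 * R) ≤ a0 * (R0 : ℝ) ^ 60 * 1 := by
                apply mul_le_mul _ (pow_le_one₀ hσ0 hσ1) (by positivity) (by positivity)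
                apply mul_le_mul_of_nonneg_left _ ha0pos.le
                exact pow_le_pow_left₀ hL.le hLR 60
            _ = (1 : ℝ) / (2 ^ 30 * (R0 : ℝ)) := by
                rw [ha0]
                field_simp
            _ ≤ τ / 256 := by
                rw [hτ, div_div]
                apply one_div_le_one_div_of_le (by positivity)
                nlinarith
        calc a0 * L ^ 60 * σ ^ (61 * R) * ((A.card : ℝ) * B.card) ≤
              τ / 256 * ((A.card : ℝ) * B.card) := mul_le_mul_of_nonneg_right h9 hAB.le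
          _ = (τ * A.card) * (B.card / 256) := by ring
          _ ≤ ((A \ A0).card : ℝ) * F.card := by
              apply mul_le_mul hI.le _ (by positivity) (by positivity)
              linarith

/-- A large class of rows. -/
theorem exists_large_class {N : V → V → ℝ} {A B : Finset V} {M : ℕ}
    (hred : ∀ B' ⊆ B, Red N A B' → B'.card < M) (hB : B.Nonempty) :
    ∃ C ⊆ B, rk N A C ≤ 1 ∧ (B.card : ℝ) ≤ M * C.card := by
  classical
  obtain ⟨B', hB', hredB, hrepB⟩ := exists_reps (Par N A) (Par.refl _ _)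
    (fun _ _ h => h.symm) B
  by_contra hcon
  push Not at hcon
  have hB'ne : B'.Nonempty := by
    obtain ⟨b, hb⟩ := hB
    obtain ⟨b', hb', _⟩ := hrepB b hb
    exact ⟨b', hb'⟩
  have hM := hred B' hB' hredB
  have hsub : B ⊆ B'.biUnion (fun b' => B.filter (fun b => Par N A b' b)) := by
    intro b hb
    obtain ⟨b', hb', hp⟩ := hrepB b hb
    rw [Finset.mem_biUnion]
    exact ⟨b', hb', Finset.mem_filter.mpr ⟨hb, hp.symm⟩⟩
  have h1 : (B.card : ℝ) ≤ ∑ b' ∈ B', ((B.filter (fun b => Par N A b' b)).card : ℝ) := by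
    have := (Finset.card_le_card hsub).trans Finset.card_biUnion_le
    exact_mod_cast this
  have hBpos : (0 : ℝ) < B.card := by exact_mod_cast hB.card_pos
  have hMpos : (0 : ℝ) < M := by exact_mod_cast (by omega : 0 < M)
  have h2 : ∀ b' ∈ B', ((B.filter (fun b => Par N A b' b)).card : ℝ) < B.card / M := by
    intro b' hb'
    have h3 : rk N A (B.filter (fun b => Par N A b' b)) ≤ 1 := by
      have hle1 : CS N A (B.filter (fun b => Par N A b' b)) ≤
          Submodule.span ℝ {P A (col N b')} := by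
        rw [CS, Submodule.span_le]
        rintro _ ⟨b, hb, rfl⟩
        have hb' : b ∈ B.filter (fun b => Par N A b' b) := hb
        rw [Finset.mem_filter] at hb'
        obtain ⟨s, hs, hp⟩ := hb'.2.symm
        show P A (col N b) ∈ Submodule.span ℝ {P A (col N b')}
        rw [Submodule.mem_span_singleton]
        refine ⟨s, ?_⟩
        rw [← map_smul, P_eq_iff]
        intro a ha
        simp only [Pi.smul_apply, smul_eq_mul, col]
        exact (hp a ha).symm
      calc rk N A _ ≤ finrank ℝ (Submodule.span ℝ {P A (col N b')}) :=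
            Submodule.finrank_mono hle1
        _ ≤ 1 := by
            refine (finrank_span_le_card _).trans ?_
            simp
    have h4 := hcon _ (Finset.filter_subset (fun b => Par N A b' b) B) h3
    rw [lt_div_iff₀ hMpos]
    linarith
  have h5 : ∑ b' ∈ B', ((B.filter (fun b => Par N A b' b)).card : ℝ) < ∑ b' ∈ B', (B.card : ℝ) / M :=
    Finset.sum_lt_sum_of_nonempty hB'ne h2
  rw [Finset.sum_const, nsmul_eq_mul] at h5
  have h6 : (B'.card : ℝ) * (B.card / M) ≤ B.card := by
    have : (B'.card : ℝ) ≤ M := by exact_mod_cast hM.le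
    calc (B'.card : ℝ) * (B.card / M) ≤ M * (B.card / M) := by
          apply mul_le_mul_of_nonneg_right this (by positivity)
      _ = B.card := by field_simp
  linarith

theorem claim_all (R0 : ℕ) : ∀ R ≤ R0, Claim V (1 - 1 / (122 * R0)) (1 / (2 ^ 30 * R0 ^ 61)) R := by
  classical
  intro R
  induction R using Nat.strong_induction_on with
  | _ R ih =>
  intro hR0 N hN A B w1 w2 L hA hB hrk h1 h2 hL hLW
  have ih' : ∀ R' < R, Claim V (1 - 1 / (122 * (R0 : ℝ))) (1 / (2 ^ 30 * (R0 : ℝ) ^ 61)) R' :=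
    fun R' hR' => ih R' hR' (by omega)
  by_cases hc : ∃ b1 ∈ B, ∃ b2 ∈ B, ¬ Par N A b1 b2 ∧ (A.card : ℝ) < 64 * |ip N A b1 b2|
  · obtain ⟨b1, hb1, b2, hb2, hnp, hbias⟩ := hc
    exact step_cols hR0 rfl rfl ih' hN hA hB hrk h1 h2 hL hLW hb1 hb2 hnp hbias
  by_cases hr : ∃ a1 ∈ A, ∃ a2 ∈ A, ¬ Par (tr N) B a1 a2 ∧
      (B.card : ℝ) < 64 * |ip (tr N) B a1 a2|
  · obtain ⟨a1, ha1, a2, ha2, hnp, hbias⟩ := hr
    apply Good.of_tr
    have := step_cols hR0 rfl rfl ih' hN.tr hB hA (by rw [rk_tr, hrk]) h2 h1 hL (by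
      calc L * (w2 * w1 * 2 ^ R) = L * (w1 * w2 * 2 ^ R) := by ring
        _ ≤ _ := hLW
        _ = _ := by ring) ha1 ha2 hnp hbias
    rwa [mul_comm (B.card : ℝ)] at this
  push Not at hc hr
  -- no biased pair
  have hRpos : 0 < R := by rw [← hrk]; exact rk_pos hN hA hB
  have hR0R : (1 : ℝ) ≤ R0 := by exact_mod_cast (by omega : 1 ≤ R0)
  have hApos : (0 : ℝ) < A.card := by exact_mod_cast hA.card_pos
  have hBpos : (0 : ℝ) < B.card := by exact_mod_cast hB.card_pos
  set k := (R + 15) / 16 with hk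
  have hk1 : 1 ≤ k := by omega
  have hk2 : R ≤ 16 * k := by omega
  have hk3 : 16 * k ≤ R + 15 := by omega
  have hredB : ∀ B' ⊆ B, Red N A B' → B'.card < 64 ^ k := by
    intro B' hB' hred
    apply bias hN hA hk1 _ _
    · exact (rk_mono_right N A hB').trans (by rw [hrk]; exact hk2)
    · intro b hb b' hb' hne
      exact hc b (hB' hb) b' (hB' hb') fun h => hne (hred b hb b' hb' h)
  have hredA : ∀ A' ⊆ A, Red (tr N) B A' → A'.card < 64 ^ k := by
    intro A' hA' hred
    apply bias hN.tr hB hk1 _ _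
    · rw [rk_tr]
      exact (rk_mono_left N B hA').trans (by rw [hrk]; exact hk2)
    · intro b hb b' hb' hne
      exact hr b (hA' hb) b' (hA' hb') fun h => hne (hred b hb b' hb' h)
  obtain ⟨C, hCB, hCrk, hCcard⟩ := exists_large_class hredB hB
  refine ⟨A, Finset.Subset.refl _, C, hCB, hCrk, ?_⟩
  -- bound for `L`
  have hAw : (A.card : ℝ) ≤ w1 * 64 ^ k := by
    obtain ⟨A', hA', hred, hrep⟩ := exists_reps (Par (tr N) B) (Par.refl _ _)
      (fun _ _ h => h.symm) A
    have h3 := card_le_of_reps h1 hA' hrep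
    have h4 := (hredA A' hA' hred).le
    have : A.card ≤ w1 * 64 ^ k := h3.trans (Nat.mul_le_mul_left _ h4)
    exact_mod_cast this
  have hBw : (B.card : ℝ) ≤ w2 * 64 ^ k := by
    obtain ⟨B', hB', hred, hrep⟩ := exists_reps (Par N A) (Par.refl _ _)
      (fun _ _ h => h.symm) B
    have h3 := card_le_of_reps h2 hB' hrep
    have h4 := (hredB B' hB' hred).le
    have : B.card ≤ w2 * 64 ^ k := h3.trans (Nat.mul_le_mul_left _ h4)
    exact_mod_cast this
  have hw1R : (1 : ℝ) ≤ w1 := by exact_mod_cast h1.pos hA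
  have hw2R : (1 : ℝ) ≤ w2 := by exact_mod_cast h2.pos hB
  have hL1 : L * 2 ^ R ≤ 64 ^ k * 64 ^ k := by
    have h3 : (w1 * w2 : ℝ) * (L * 2 ^ R) ≤ (w1 * w2 : ℝ) * (64 ^ k * 64 ^ k) := by
      calc (w1 * w2 : ℝ) * (L * 2 ^ R) = L * (w1 * w2 * 2 ^ R) := by ring
        _ ≤ _ := hLW
        _ ≤ (w1 * 64 ^ k) * (w2 * 64 ^ k) := mul_le_mul hAw hBw hBpos.le (by positivity)
        _ = _ := by ring
    exact le_of_mul_le_mul_left h3 (by positivity)
  have hL2 : L * 2 ^ (4 * k) ≤ 2 ^ 15 := by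
    have h3 : L * 2 ^ (16 * k) ≤ 2 ^ 15 * 2 ^ (12 * k) := by
      calc L * 2 ^ (16 * k) ≤ L * 2 ^ (R + 15) := by
            apply mul_le_mul_of_nonneg_left _ hL.le
            exact pow_le_pow_right₀ (by norm_num) hk3
        _ = 2 ^ 15 * (L * 2 ^ R) := by ring
        _ ≤ 2 ^ 15 * (64 ^ k * 64 ^ k) := by linarith
        _ = 2 ^ 15 * 2 ^ (12 * k) := by
            rw [show (64 : ℝ) = 2 ^ 6 by norm_num, ← pow_mul, ← pow_add]
            congr 2
            ring
    have h4 : L * 2 ^ (16 * k) = L * 2 ^ (4 * k) * 2 ^ (12 * k) := by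
      rw [mul_assoc, ← pow_add]
      congr 2
      ring
    rw [h4] at h3
    exact le_of_mul_le_mul_right h3 (by positivity)
  have hLR : L ≤ R0 := by
    have h4 := kw_weighted hN h1 h2
    rw [hrk] at h4
    have h5 : (A.card : ℝ) * B.card ≤ w1 * w2 * (R * 2 ^ R) := by exact_mod_cast h4
    have h6 : L * (w1 * w2 * 2 ^ R) ≤ R * (w1 * w2 * 2 ^ R) := by
      calc L * (w1 * w2 * 2 ^ R) ≤ _ := hLW
        _ ≤ _ := h5
        _ = _ := by ring
    have h7 : L ≤ R := le_of_mul_le_mul_right h6 (by positivity)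
    have h8 : (R : ℝ) ≤ R0 := by exact_mod_cast hR0
    linarith
  have hσ0 : (0 : ℝ) ≤ 1 - 1 / (122 * R0) := by
    rw [sub_nonneg, div_le_one (by positivity)]
    linarith
  have hσ1 : (1 : ℝ) - 1 / (122 * R0) ≤ 1 := by
    have : (0 : ℝ) ≤ 1 / (122 * R0) := by positivity
    linarith
  have h9 : (1 / (2 ^ 30 * (R0 : ℝ) ^ 61)) * L ^ 60 * (1 - 1 / (122 * (R0 : ℝ))) ^ (61 * R) *
      64 ^ k ≤ 1 := by
    have h10 : L ^ 2 * 64 ^ k ≤ 2 ^ 30 := by
      calc L ^ 2 * 64 ^ k ≤ L ^ 2 * 2 ^ (8 * k) := by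
            apply mul_le_mul_of_nonneg_left _ (by positivity)
            rw [show (64 : ℝ) = 2 ^ 6 by norm_num, ← pow_mul]
            exact pow_le_pow_right₀ (by norm_num) (by omega)
        _ = (L * 2 ^ (4 * k)) ^ 2 := by
            rw [mul_pow, ← pow_mul]
            congr 2
            ring
        _ ≤ (2 ^ 15) ^ 2 := pow_le_pow_left₀ (by positivity) hL2 2
        _ = 2 ^ 30 := by norm_num
    have h11 : L ^ 58 ≤ (R0 : ℝ) ^ 61 := by
      calc L ^ 58 ≤ (R0 : ℝ) ^ 58 := pow_le_pow_left₀ hL.le hLR 58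
        _ ≤ (R0 : ℝ) ^ 61 := pow_le_pow_right₀ hR0R (by norm_num)
    calc (1 / (2 ^ 30 * (R0 : ℝ) ^ 61)) * L ^ 60 * (1 - 1 / (122 * (R0 : ℝ))) ^ (61 * R) *
          64 ^ k ≤ (1 / (2 ^ 30 * (R0 : ℝ) ^ 61)) * L ^ 60 * 1 * 64 ^ k := by
            gcongr
            exact pow_le_one₀ hσ0 hσ1
      _ = (L ^ 58 * (L ^ 2 * 64 ^ k)) / ((R0 : ℝ) ^ 61 * 2 ^ 30) := by
            field_simp
      _ ≤ 1 := by
            rw [div_le_one (by positivity)]
            exact mul_le_mul h11 h10 (by positivity) (by positivity)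
  have hCc : (B.card : ℝ) ≤ 64 ^ k * C.card := by exact_mod_cast hCcard
  calc (1 / (2 ^ 30 * (R0 : ℝ) ^ 61)) * L ^ 60 * (1 - 1 / (122 * (R0 : ℝ))) ^ (61 * R) *
        ((A.card : ℝ) * B.card) ≤
        (1 / (2 ^ 30 * (R0 : ℝ) ^ 61)) * L ^ 60 * (1 - 1 / (122 * (R0 : ℝ))) ^ (61 * R) *
        ((A.card : ℝ) * (64 ^ k * C.card)) := by
          gcongr
    _ = ((1 / (2 ^ 30 * (R0 : ℝ) ^ 61)) * L ^ 60 * (1 - 1 / (122 * (R0 : ℝ))) ^ (61 * R) *
        64 ^ k) * ((A.card : ℝ) * C.card) := by ring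
    _ ≤ 1 * ((A.card : ℝ) * C.card) := by
        apply mul_le_mul_of_nonneg_right h9 (by positivity)
    _ = _ := one_mul _

/-- The main statement on rectangles. -/
theorem rect {R0 : ℕ} (hR0 : 1 ≤ R0) {N : V → V → ℝ} (hN : PM N) {A B : Finset V}
    (hA : A.Nonempty) (hB : B.Nonempty) (hrk : rk N A B ≤ R0) {w1 w2 : ℕ}
    (h1 : ColW (tr N) B A w1) (h2 : ColW N A B w2) {L : ℝ} (hL : 0 < L)
    (hLW : L * (w1 * w2 * 2 ^ rk N A B) ≤ (A.card : ℝ) * B.card) :
    Good N A B (L ^ 60 / (2 ^ 31 * R0 ^ 61) * ((A.card : ℝ) * B.card)) := by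
  have hc := claim_all (V := V) R0 (rk N A B) hrk N hN A B w1 w2 L hA hB rfl h1 h2 hL hLW
  refine hc.mono (Finset.Subset.refl _) (Finset.Subset.refl _) ?_
  apply mul_le_mul_of_nonneg_right _ (by positivity)
  have hR0R : (1 : ℝ) ≤ R0 := by exact_mod_cast hR0
  have hrkR : (rk N A B : ℝ) ≤ R0 := by exact_mod_cast hrk
  have hb : (1 : ℝ) / 2 ≤ (1 - 1 / (122 * (R0 : ℝ))) ^ (61 * rk N A B) := by
    have h3 := one_add_mul_le_pow (a := -(1 / (122 * (R0 : ℝ)))) (by
      have : (1 : ℝ) / (122 * R0) ≤ 1 := by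
        rw [div_le_one (by positivity)]
        linarith
      linarith) (61 * rk N A B)
    rw [← sub_eq_add_neg] at h3
    refine le_trans ?_ h3
    push_cast
    have h4 : (61 * (rk N A B : ℝ)) * (1 / (122 * (R0 : ℝ))) ≤ 1 / 2 := by
      rw [mul_one_div, div_le_iff₀ (by positivity)]
      linarith
    linarith
  calc L ^ 60 / (2 ^ 31 * (R0 : ℝ) ^ 61) = 1 / (2 ^ 30 * (R0 : ℝ) ^ 61) * L ^ 60 * (1 / 2) := by
        field_simp
    _ ≤ _ := by
        apply mul_le_mul_of_nonneg_left hb (by positivity)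

end Pool.Agent.Helper6.LR
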