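import Pool.Agent.Helper6.LR.Basic

set_option linter.unusedSectionVars false

/-!
# Counting classes, merging, and the splitting lemma
-/

namespace Pool.Agent.Helper6.LR

open Finset Module

variable {V : Type*} [Fintype V] [DecidableEq V]

theorem val_cases {N : V → V → ℝ} (hN : PM N) (A : Finset V) (i b : V) {s : ℝ} (hs : s * s = 1) :
    (s • P A (col N b)) i = (if i ∈ A then 1 else 0) ∨
      (s • P A (col N b)) i = (if i ∈ A then -1 else 0) := by
  by_cases hi : i ∈ A
  · simp only [Pi.smul_apply, P_mem hi, smul_eq_mul, if_pos hi, col]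
    rcases sq_one hs with rfl | rfl <;> rcases hN i b with h | h <;> rw [h] <;> norm_num
  · simp only [Pi.smul_apply, P_not_mem hi, smul_eq_mul, if_neg hi, mul_zero]
    simp

/-- All classes of columns of `B` (up to sign, on `A`) have at most `w` elements. -/
def ColW (N : V → V → ℝ) (A B : Finset V) (w : ℕ) : Prop :=
  ∀ b ∈ B, ∀ S : Finset V, S ⊆ B → (∀ b' ∈ S, Par N A b b') → S.card ≤ w

theorem ColW.mono_right {N : V → V → ℝ} {A B B' : Finset V} {w : ℕ} (h : ColW N A B w)
    (hB : B' ⊆ B) : ColW N A B' w :=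
  fun b hb S hS hp => h b (hB hb) S (hS.trans hB) hp

theorem ColW.mono_w {N : V → V → ℝ} {A B : Finset V} {w w' : ℕ} (h : ColW N A B w)
    (hw : w ≤ w') : ColW N A B w' :=
  fun b hb S hS hp => (h b hb S hS hp).trans hw

/-- Restricting the rows to `A'` merges at most `2 ^ (rank drop)` classes. -/
theorem ColW.merge {N : V → V → ℝ} (hN : PM N) {A A' B : Finset V} {w : ℕ}
    (h : ColW N A B w) (hA : A' ⊆ A) : ColW N A' B (w * 2 ^ (rk N A B - rk N A' B)) := by
  classical
  intro b hb S hS hp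
  -- signs
  have hsig : ∀ b' : V, ∃ s : ℝ, s * s = 1 ∧ (b' ∈ S → ∀ a ∈ A', N a b = s * N a b') := by
    intro b'
    by_cases hb' : b' ∈ S
    · obtain ⟨s, hs, h⟩ := hp b' hb'
      exact ⟨s, hs, fun _ => h⟩
    · exact ⟨1, by norm_num, fun h => absurd h hb'⟩
  choose s hs hsb using hsig
  let f : V → (V → ℝ) := fun b' => s b' • P A (col N b')
  have hfib : ∀ t ∈ S.image f, (S.filter (fun x => f x = t)).card ≤ w := by
    intro t ht
    obtain ⟨c, hc, rfl⟩ := Finset.mem_image.mp ht
    refine h c (hS hc) _ ((Finset.filter_subset _ _).trans hS) ?_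
    intro b' hb'
    rw [Finset.mem_filter] at hb'
    refine ⟨s c * s b', ?_, ?_⟩
    · calc s c * s b' * (s c * s b') = (s c * s c) * (s b' * s b') := by ring
        _ = 1 := by rw [hs, hs]; norm_num
    · intro a ha
      have h1 := congrFun hb'.2 a
      simp only [f, Pi.smul_apply, P_mem ha, smul_eq_mul, col] at h1
      calc N a c = (s c * s c) * N a c := by rw [hs, one_mul]
        _ = s c * (s c * N a c) := by ring
        _ = s c * (s b' * N a b') := by rw [h1]
        _ = s c * s b' * N a b' := by ring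
  have hT : (S.image f).card ≤ 2 ^ (rk N A B - rk N A' B) := by
    apply cube_count _ (CS N A B ⊓ LinearMap.ker (P A'))
    · have := rk_add_ker N B hA
      omega
    · intro x hx y hy
      obtain ⟨c, hc, rfl⟩ := Finset.mem_image.mp hx
      obtain ⟨c', hc', rfl⟩ := Finset.mem_image.mp hy
      refine ⟨Submodule.sub_mem _ (Submodule.smul_mem _ _ (mem_CS N A (hS hc)))
        (Submodule.smul_mem _ _ (mem_CS N A (hS hc'))), ?_⟩
      have h2 : ∀ e ∈ S, P A' (f e) = P A' (col N b) := by
        intro e he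
        simp only [f]
        rw [map_smul, P_P hA, ← map_smul, P_eq_iff]
        intro a ha
        simp only [Pi.smul_apply, smul_eq_mul, col]
        exact (hsb e he a ha).symm
      have h3 : P A' (f c - f c') = 0 := by
        rw [map_sub, h2 c hc, h2 c' hc', sub_self]
      exact h3
    · intro i
      refine ⟨if i ∈ A then 1 else 0, if i ∈ A then -1 else 0, ?_⟩
      intro x hx
      obtain ⟨c, hc, rfl⟩ := Finset.mem_image.mp hx
      exact val_cases hN A i c (hs c)
  calc S.card ≤ w * (S.image f).card := Finset.card_le_mul_card_image S w hfib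
    _ ≤ w * 2 ^ (rk N A B - rk N A' B) := Nat.mul_le_mul_left _ hT

/-- The number of different columns of `N[A, B]`. -/
theorem card_patterns {N : V → V → ℝ} (hN : PM N) (A B : Finset V) :
    (B.image (fun b => P A (col N b))).card ≤ 2 ^ rk N A B := by
  classical
  apply cube_count _ (CS N A B) _ le_rfl
  · intro x hx y hy
    obtain ⟨c, hc, rfl⟩ := Finset.mem_image.mp hx
    obtain ⟨c', hc', rfl⟩ := Finset.mem_image.mp hy
    exact Submodule.sub_mem _ (mem_CS N A hc) (mem_CS N A hc')
  · intro i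
    refine ⟨if i ∈ A then 1 else 0, if i ∈ A then -1 else 0, ?_⟩
    intro x hx
    obtain ⟨c, hc, rfl⟩ := Finset.mem_image.mp hx
    simpa using val_cases hN A i c (s := 1) (by norm_num)

/-- Pairwise non-proportional columns. -/
def Red (N : V → V → ℝ) (A B : Finset V) : Prop := ∀ b ∈ B, ∀ b' ∈ B, Par N A b b' → b = b'

theorem card_red {N : V → V → ℝ} (hN : PM N) {A B : Finset V} (hA : A.Nonempty)
    (hB : Red N A B) : 2 * B.card ≤ 2 ^ rk N A B := by
  classical
  obtain ⟨a, ha⟩ := hA
  let f : V → (V → ℝ) := fun b => P A (col N b)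
  have hinj : Set.InjOn f B := by
    intro b hb b' hb' h
    refine hB b hb b' hb' ⟨1, by norm_num, ?_⟩
    intro i hi
    have := P_eq_iff.mp h i hi
    simpa [col] using this
  have hinj' : Set.InjOn (fun b => - f b) B := by
    intro b hb b' hb' h
    exact hinj hb hb' (neg_injective h)
  have hdis : Disjoint (B.image f) (B.image (fun b => - f b)) := by
    rw [Finset.disjoint_left]
    intro x hx hx'
    obtain ⟨b, hb, rfl⟩ := Finset.mem_image.mp hx
    obtain ⟨b', hb', h⟩ := Finset.mem_image.mp hx'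
    have h1 : ∀ i ∈ A, N i b = -N i b' := by
      intro i hi
      have := congrFun h i
      simp only [f, Pi.neg_apply, P_mem hi, col] at this
      exact this.symm
    have h2 : b = b' := by
      refine hB b hb b' hb' ⟨-1, by norm_num, ?_⟩
      intro i hi
      rw [h1 i hi]
      ring
    subst h2
    have h3 := h1 a ha
    rcases hN a b with h4 | h4 <;> rw [h4] at h3 <;> norm_num at h3
  have hcard : ((B.image f) ∪ (B.image (fun b => - f b))).card = 2 * B.card := by
    rw [Finset.card_union_of_disjoint hdis, Finset.card_image_of_injOn hinj,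
      Finset.card_image_of_injOn hinj']
    ring
  rw [← hcard]
  have hform : ∀ x ∈ (B.image f) ∪ (B.image (fun b => - f b)), ∃ b ∈ B, ∃ s : ℝ, s * s = 1 ∧
      x = s • P A (col N b) := by
    intro x hx
    rw [Finset.mem_union] at hx
    rcases hx with hx | hx
    · obtain ⟨b, hb, rfl⟩ := Finset.mem_image.mp hx
      exact ⟨b, hb, 1, by norm_num, by simp [f]⟩
    · obtain ⟨b, hb, rfl⟩ := Finset.mem_image.mp hx
      exact ⟨b, hb, -1, by norm_num, by simp [f]⟩
  apply cube_count _ (CS N A B) _ le_rfl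
  · intro x hx y hy
    obtain ⟨c, hc, s, hs, rfl⟩ := hform x hx
    obtain ⟨c', hc', s', hs', rfl⟩ := hform y hy
    exact Submodule.sub_mem _ (Submodule.smul_mem _ _ (mem_CS N A hc))
      (Submodule.smul_mem _ _ (mem_CS N A hc'))
  · intro i
    refine ⟨if i ∈ A then 1 else 0, if i ∈ A then -1 else 0, ?_⟩
    intro x hx
    obtain ⟨c, hc, s, hs, rfl⟩ := hform x hx
    exact val_cases hN A i c hs

theorem exists_reps (r : V → V → Prop) (hrefl : ∀ b, r b b) (hsymm : ∀ b b', r b b' → r b' b)
    (B : Finset V) : ∃ B' ⊆ B, (∀ b ∈ B', ∀ b' ∈ B', r b b' → b = b') ∧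
      ∀ b ∈ B, ∃ b' ∈ B', r b b' := by
  classical
  let F := B.powerset.filter (fun B' => ∀ b ∈ B', ∀ b' ∈ B', r b b' → b = b')
  have hF : F.Nonempty := ⟨∅, by simp [F]⟩
  obtain ⟨B', hB', hmax⟩ := Finset.exists_max_image F Finset.card hF
  simp only [F, Finset.mem_filter, Finset.mem_powerset] at hB' hmax
  refine ⟨B', hB'.1, hB'.2, ?_⟩
  intro b hb
  by_contra hcon
  push Not at hcon
  have hbB' : b ∉ B' := fun h => hcon b h (hrefl b)
  have h1 := hmax (insert b B') ⟨?_, ?_⟩
  · rw [Finset.card_insert_of_notMem hbB'] at h1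
    omega
  · intro x hx
    rcases Finset.mem_insert.mp hx with rfl | hx
    · exact hb
    · exact hB'.1 hx
  · intro x hx y hy hxy
    rcases Finset.mem_insert.mp hx with h2 | h2
    · rcases Finset.mem_insert.mp hy with h3 | h3
      · rw [h2, h3]
      · rw [h2] at hxy
        exact absurd hxy (hcon y h3)
    · rcases Finset.mem_insert.mp hy with h3 | h3
      · rw [h3] at hxy
        exact absurd (hsymm _ _ hxy) (hcon x h2)
      · exact hB'.2 x h2 y h3 hxy

theorem card_le_of_reps {N : V → V → ℝ} {A B B' : Finset V} {w : ℕ} (h : ColW N A B w)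
    (hB' : B' ⊆ B) (hrep : ∀ b ∈ B, ∃ b' ∈ B', Par N A b b') : B.card ≤ w * B'.card := by
  classical
  have hsub : B ⊆ B'.biUnion (fun b' => B.filter (fun b => Par N A b' b)) := by
    intro b hb
    obtain ⟨b', hb', hp⟩ := hrep b hb
    rw [Finset.mem_biUnion]
    exact ⟨b', hb', Finset.mem_filter.mpr ⟨hb, hp.symm⟩⟩
  calc B.card ≤ _ := Finset.card_le_card hsub
    _ ≤ B'.card * w := Finset.card_biUnion_le_card_mul _ _ _ fun b' hb' =>
        h b' (hB' hb') _ (Finset.filter_subset _ _) fun x hx => (Finset.mem_filter.mp hx).2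
    _ = w * B'.card := mul_comm _ _

/-- Rows stay pairwise non-proportional on a set of representatives of the columns. -/
theorem red_rows {N : V → V → ℝ} {A A0 B B' : Finset V} (hA : A0 ⊆ A) (h : Red (tr N) B A)
    (hrep : ∀ b ∈ B, ∃ b' ∈ B', Par N A0 b b') : Red (tr N) B' A0 := by
  intro a ha a' ha' hp
  refine h a (hA ha) a' (hA ha') ?_
  obtain ⟨s, hs, hp⟩ := hp
  refine ⟨s, hs, ?_⟩
  intro b hb
  obtain ⟨b', hb', t, ht, hbb⟩ := hrep b hb
  have h1 := hp b' hb'
  simp only [tr] at h1 ⊢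
  rw [hbb a ha, hbb a' ha', h1]
  ring

/-- The splitting lemma. `A0` is a maximal set on which two non-proportional columns agree up to
sign. -/
theorem split {N : V → V → ℝ} (hN : PM N) {A B : Finset V} {b1 b2 : V} (hb1 : b1 ∈ B)
    (hb2 : b2 ∈ B) (hnp : ¬ Par N A b1 b2) {s : ℝ} (hs : s * s = 1) :
    ∃ A0 ⊆ A, (∀ a ∈ A, N a b1 = s * N a b2 → a ∈ A0) ∧ rk N A0 B < rk N A B ∧
      (∀ b ∈ B, ∀ b' ∈ B, ∀ b'' ∈ B, Par N A0 b b' → Par N A0 b b'' → ¬ Par N A b b' →
        ¬ Par N A b b'' → Par N A b' b'') ∧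
      (rk N A B = rk N A0 B + 1 → ∀ F ⊆ B, (∀ b ∈ F, ∃ b' ∈ B, Par N A0 b b' ∧
        ¬ Par N A b b') → rk N (A \ A0) F ≤ 1) := by
  classical
  let Fam : Finset (Finset V) := A.powerset.filter (fun X => ∃ b ∈ B, ∃ b' ∈ B, ∃ s : ℝ,
    s * s = 1 ∧ ¬ Par N A b b' ∧ X = A.filter (fun a => N a b = s * N a b'))
  have hX0 : A.filter (fun a => N a b1 = s * N a b2) ∈ Fam := by
    simp only [Fam, Finset.mem_filter, Finset.mem_powerset]
    exact ⟨Finset.filter_subset _ _, b1, hb1, b2, hb2, s, hs, hnp, rfl⟩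
  obtain ⟨A0, hle, hmax⟩ := Fam.exists_le_maximal hX0
  have hA0 := hmax.1
  simp only [Fam, Finset.mem_filter, Finset.mem_powerset] at hA0
  obtain ⟨hA0A, c1, hc1, c2, hc2, σ, hσ, hcnp, hA0eq⟩ := hA0
  -- maximality in a convenient form
  have hM : ∀ b ∈ B, ∀ b' ∈ B, ¬ Par N A b b' → ∀ t : ℝ, t * t = 1 →
      (∀ a ∈ A0, N a b = t * N a b') → ∀ a ∈ A \ A0, N a b = -t * N a b' := by
    intro b hb b' hb' hnp' t ht hag a ha
    rw [Finset.mem_sdiff] at ha
    have h1 : A.filter (fun a => N a b = t * N a b') ∈ Fam := by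
      simp only [Fam, Finset.mem_filter, Finset.mem_powerset]
      exact ⟨Finset.filter_subset _ _, b, hb, b', hb', t, ht, hnp', rfl⟩
    have h2 : A0 ≤ A.filter (fun a => N a b = t * N a b') := by
      intro x hx
      rw [Finset.mem_filter]
      exact ⟨hA0A hx, hag x hx⟩
    have h3 := hmax.2 h1 h2
    apply pm_ne ht (hN a b) (hN a b')
    intro h4
    exact ha.2 (h3 (Finset.mem_filter.mpr ⟨ha.1, h4⟩))
  have hag0 : ∀ a ∈ A0, N a c1 = σ * N a c2 := by
    intro a ha
    rw [hA0eq, Finset.mem_filter] at ha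
    exact ha.2
  -- the vector in the kernel
  let v : V → ℝ := P A (col N c1) - σ • P A (col N c2)
  have hvK : v ∈ CS N A B ⊓ LinearMap.ker (P A0) := by
    refine ⟨Submodule.sub_mem _ (mem_CS N A hc1) (Submodule.smul_mem _ _ (mem_CS N A hc2)), ?_⟩
    have : P A0 v = 0 := by
      simp only [v]
      rw [map_sub, map_smul, P_P hA0A, P_P hA0A, ← map_smul, sub_eq_zero, P_eq_iff]
      intro a ha
      simp only [Pi.smul_apply, smul_eq_mul, col]
      exact hag0 a ha
    exact this
  have hv0 : v ≠ 0 := by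
    intro h0
    apply hcnp
    refine ⟨σ, hσ, ?_⟩
    intro a ha
    have := congrFun h0 a
    simp only [v, Pi.sub_apply, Pi.smul_apply, P_mem ha, smul_eq_mul, col, Pi.zero_apply] at this
    linarith
  have hv1 : ∀ a ∈ A \ A0, v a = 2 * N a c1 := by
    intro a ha
    have h1 := hM c1 hc1 c2 hc2 hcnp σ hσ hag0 a ha
    have haA := (Finset.mem_sdiff.mp ha).1
    simp only [v, Pi.sub_apply, Pi.smul_apply, P_mem haA, smul_eq_mul, col]
    linarith
  have hkpos : 0 < finrank ℝ (CS N A B ⊓ LinearMap.ker (P A0) : Submodule ℝ (V → ℝ)) := by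
    apply Module.finrank_pos_iff.mpr
    exact ⟨⟨v, hvK⟩, 0, fun h => hv0 (congrArg Subtype.val h)⟩
  have hadd := rk_add_ker N B hA0A
  refine ⟨A0, hA0A, ?_, by omega, ?_, ?_⟩
  · intro a ha h
    exact hle (Finset.mem_filter.mpr ⟨ha, h⟩)
  · intro b hb b' hb' b'' hb'' hp hp' hnp1 hnp2
    obtain ⟨t, ht, hp⟩ := hp
    obtain ⟨t', ht', hp'⟩ := hp'
    refine ⟨t * t', ?_, ?_⟩
    · calc t * t' * (t * t') = (t * t) * (t' * t') := by ring
        _ = 1 := by rw [ht, ht']; norm_num
    · intro a ha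
      by_cases haA0 : a ∈ A0
      · have h1 := hp a haA0
        have h2 := hp' a haA0
        calc N a b' = (t * t) * N a b' := by rw [ht, one_mul]
          _ = t * (t * N a b') := by ring
          _ = t * (t' * N a b'') := by rw [← h1, h2]
          _ = t * t' * N a b'' := by ring
      · have ha1 : a ∈ A \ A0 := Finset.mem_sdiff.mpr ⟨ha, haA0⟩
        have h1 := hM b hb b' hb' hnp1 t ht hp a ha1
        have h2 := hM b hb b'' hb'' hnp2 t' ht' hp' a ha1
        calc N a b' = (t * t) * N a b' := by rw [ht, one_mul]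
          _ = -t * (-t * N a b') := by ring
          _ = -t * (-t' * N a b'') := by rw [← h1, h2]
          _ = t * t' * N a b'' := by ring
  · intro hk F hF hFp
    have hfr : finrank ℝ (CS N A B ⊓ LinearMap.ker (P A0) : Submodule ℝ (V → ℝ)) = 1 := by
      omega
    have hspan : ∀ w ∈ (CS N A B ⊓ LinearMap.ker (P A0) : Submodule ℝ (V → ℝ)),
        ∃ c : ℝ, c • v = w := by
      intro w hw
      obtain ⟨c, hc⟩ := (finrank_eq_one_iff_of_nonzero' (⟨v, hvK⟩ :
        (CS N A B ⊓ LinearMap.ker (P A0) : Submodule ℝ (V → ℝ)))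
        (fun h => hv0 (congrArg Subtype.val h))).mp hfr ⟨w, hw⟩
      exact ⟨c, congrArg Subtype.val hc⟩
    have hle1 : CS N (A \ A0) F ≤ Submodule.span ℝ {P (A \ A0) (col N c1)} := by
      rw [CS, Submodule.span_le]
      rintro _ ⟨b, hb, rfl⟩
      obtain ⟨b', hb', hp, hnp'⟩ := hFp b hb
      obtain ⟨t, ht, hp⟩ := hp
      have hw : P A (col N b) - t • P A (col N b') ∈ CS N A B ⊓ LinearMap.ker (P A0) := by
        refine ⟨Submodule.sub_mem _ (mem_CS N A (hF hb))
          (Submodule.smul_mem _ _ (mem_CS N A hb')), ?_⟩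
        have : P A0 (P A (col N b) - t • P A (col N b')) = 0 := by
          rw [map_sub, map_smul, P_P hA0A, P_P hA0A, ← map_smul, sub_eq_zero, P_eq_iff]
          intro a ha
          simp only [Pi.smul_apply, smul_eq_mul, col]
          exact hp a ha
        exact this
      obtain ⟨c, hc⟩ := hspan _ hw
      show P (A \ A0) (col N b) ∈ Submodule.span ℝ {P (A \ A0) (col N c1)}
      rw [Submodule.mem_span_singleton]
      refine ⟨c, ?_⟩
      rw [← map_smul, P_eq_iff]
      intro a ha
      have h1 := congrFun hc a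
      have haA := (Finset.mem_sdiff.mp ha).1
      have h2 := hM b (hF hb) b' hb' hnp' t ht hp a ha
      simp only [Pi.sub_apply, Pi.smul_apply, P_mem haA, smul_eq_mul, col] at h1 ⊢
      rw [hv1 a ha] at h1
      linarith
    calc rk N (A \ A0) F ≤ finrank ℝ (Submodule.span ℝ {P (A \ A0) (col N c1)}) :=
          Submodule.finrank_mono hle1
      _ ≤ 1 := by
          refine (finrank_span_le_card _).trans ?_
          simp

end Pool.Agent.Helper6.LR
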